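import Pool.Agent.Lib_helper56.Maass2.Core

namespace Pool.Agent.Maass

open Filter Topology NumberField

section
variable {K L : Type} [Field K] [NumberField K] [Field L] [NumberField L] [Algebra K L]

theorem basic_lft (φ : K →+* ℂ) (b : K) : lft K L φ (algebraMap K L b) = φ b := by
  have : Algebra.IsAlgebraic K L := Algebra.IsAlgebraic.tower_top (K := ℚ) K
  exact ComplexEmbedding.lift_algebraMap_apply L φ b

/-- `φ b` is the square of the real number `(lft φ a).re` -/
theorem pt_sq {a : L} {b : K} (h : Pt K L a b) (φ : K →+* ℂ) :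
    φ b = (((lft K L φ a).re ^ 2 : ℝ) : ℂ) := by
  have h1 : lft K L φ (algebraMap K L b) = (lft K L φ a) ^ 2 := by rw [h.sq, map_pow]
  rw [basic_lft] at h1
  rw [h1]
  have h2 : lft K L φ a = (((lft K L φ a).re : ℝ) : ℂ) := by
    apply Complex.ext
    · simp
    · simpa using h.real φ
  conv_lhs => rw [h2]
  push_cast
  ring

/-- nonzero algebraic integers have norm at least one in absolute value -/
theorem one_le_prod {c : K} (hc : IsIntegral ℤ c) (h0 : c ≠ 0) :
    1 ≤ ∏ φ : K →+* ℂ, ‖φ c‖ := by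
  have h1 : IsIntegral ℤ (Algebra.norm ℚ c) := Algebra.isIntegral_norm ℚ hc
  obtain ⟨n, hn⟩ := IsIntegrallyClosed.isIntegral_iff.1 h1
  have h2 : Algebra.norm ℚ c ≠ 0 := Algebra.norm_ne_zero_iff.2 h0
  have h3 : n ≠ 0 := by
    rintro rfl
    exact h2 (by rw [← hn]; simp)
  have h4 : ∏ φ : K →+* ℂ, φ c = ((Algebra.norm ℚ c : ℚ) : ℂ) := by
    have := Algebra.norm_eq_prod_embeddings ℚ ℂ c
    rw [eq_ratCast] at this
    rw [this]
    exact Fintype.prod_equiv (RingHom.equivRatAlgHom K ℂ) (fun φ => φ c) (fun φ => φ c) fun φ => rfl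
  have h5 : ∏ φ : K →+* ℂ, ‖φ c‖ = |(n : ℝ)| := by
    rw [← norm_prod, h4, ← hn]
    simp
  rw [h5]
  exact_mod_cast Int.one_le_abs h3

/-- the sum over the embeddings of an algebraic integer is a rational integer -/
theorem sum_int {c : K} (hc : IsIntegral ℤ c) : ∃ n : ℤ, ∑ φ : K →+* ℂ, φ c = n := by
  have h1 : IsIntegral ℤ (Algebra.trace ℚ K c) := Algebra.isIntegral_trace hc
  obtain ⟨n, hn⟩ := IsIntegrallyClosed.isIntegral_iff.1 h1
  refine ⟨n, ?_⟩
  have h4 : ∑ φ : K →+* ℂ, φ c = ((Algebra.trace ℚ K c : ℚ) : ℂ) := by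
    have := trace_eq_sum_embeddings (K := ℚ) (L := K) ℂ (x := c)
    rw [eq_ratCast] at this
    rw [this]
    exact Fintype.sum_equiv (RingHom.equivRatAlgHom K ℂ) (fun φ => φ c) (fun φ => φ c) fun φ => rfl
  rw [h4, ← hn]
  simp

end

end Pool.Agent.Maass
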