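import Pool.Agent.Lib_helper56.Maass2.Defs

namespace Pool.Agent.Maass

open Filter Topology NumberField

/-- the (real) eigenvalue at `p` of the form with index `τ` -/
noncomputable def ev {L : Type} [Field L] {P : Set ℕ} (α : P → L) (τ : L →+* ℂ) (p : P) : ℝ :=
  (τ (α p)).re

/-- the situation after restriction to a suitable progression `p ≡ 1 (mod N)` -/
structure MaassCore (L : Type) [Field L] [NumberField L] (P : Set ℕ) (α : P → L) : Prop where
  prime : ∀ p ∈ P, p.Prime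
  integral : ∀ p, IsIntegral ℤ (α p)
  real : ∀ (τ : L →+* ℂ) (p : P), (τ (α p)).im = 0
  self : ∀ τ : L →+* ℂ,
    HasMean P (fun p => U2 (ev α τ p)) 0 ∧ HasMean P (fun p => U4 (ev α τ p)) 0 ∧
    HasMean P (fun p => U2 (ev α τ p) ^ 2) 1 ∧ HasMean P (fun p => U3 (ev α τ p) ^ 2) 1 ∧
    HasMean P (fun p => U4 (ev α τ p) ^ 2) 1 ∧
    HasMean P (fun p => U2 (ev α τ p) * U4 (ev α τ p)) 0
  pair : ∀ τ τ' : L →+* ℂ,
    (∀ p : P, ev α τ p = ev α τ' p) ∨
    (HasMean P (fun p => U2 (ev α τ p) * U2 (ev α τ' p)) 0 ∧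
     (HasMean P (fun p => U3 (ev α τ p) * U3 (ev α τ' p)) 0 ∨
       ∀ p, U3 (ev α τ p) = U3 (ev α τ' p) ∧ U4 (ev α τ p) = U4 (ev α τ' p)) ∧
     (HasMean P (fun p => U4 (ev α τ p) * U4 (ev α τ' p)) 0 ∨
       ∀ p, U4 (ev α τ p) = U4 (ev α τ' p)))

/-- a chosen extension to `L` of the embedding `φ` of `K` -/
noncomputable def lft (K L : Type) [Field K] [NumberField K] [Field L] [NumberField L]
    [Algebra K L] (φ : K →+* ℂ) : L →+* ℂ :=
  haveI : Algebra.IsAlgebraic K L := Algebra.IsAlgebraic.tower_top (K := ℚ) K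
  ComplexEmbedding.lift L φ

/-- `∑ U(φ(α))` over the embeddings of `K` -/
noncomputable def SS (K L : Type) [Field K] [NumberField K] [Field L] [NumberField L]
    [Algebra K L] (U : ℝ → ℝ) (a : L) : ℝ := ∑ φ : K →+* ℂ, U ((lft K L φ a).re)

/-- `a` is an integral element of `L`, `b = a^2` lies in `K` and all the numbers `φ(a)` are real. -/
structure Pt (K L : Type) [Field K] [NumberField K] [Field L] [NumberField L]
    [Algebra K L] (a : L) (b : K) : Prop where
  int : IsIntegral ℤ a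
  sq : algebraMap K L b = a ^ 2
  real : ∀ φ : K →+* ℂ, (lft K L φ a).im = 0

/-- `φ` and `φ'` are isomorphic: `U4` is the same at all `p`, or `φ = φ'` -/
def Iso (K L : Type) [Field K] [NumberField K] [Field L] [NumberField L]
    [Algebra K L] {P : Set ℕ} (α : P → L) (φ φ' : K →+* ℂ) : Prop :=
  φ = φ' ∨ ∀ p, U4 (lft K L φ (α p)).re = U4 (lft K L φ' (α p)).re

end Pool.Agent.Maass
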