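import Pool.Agent.Lib_helper56.Maass2.Core

namespace Pool.Agent.Maass

open Filter Topology NumberField

section MEAN
variable {P : Set ℕ} {g h : P → ℝ} {a b : ℝ}

theorem mean_add (H : HasMean P g a) (H' : HasMean P h b) :
    HasMean P (fun p => g p + h p) (a + b) := by
  refine ⟨fun s hs => ?_, ?_⟩
  · simpa [add_mul] using (H.1 s hs).add (H'.1 s hs)
  · refine (H.2.add H'.2).congr' ?_
    filter_upwards [self_mem_nhdsWithin] with s hs
    rw [← add_div, ← (H.1 s hs).tsum_add (H'.1 s hs)]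
    simp [add_mul]

theorem mean_const_mul (c : ℝ) (H : HasMean P g a) :
    HasMean P (fun p => c * g p) (c * a) := by
  refine ⟨fun s hs => ?_, ?_⟩
  · simpa [mul_assoc] using (H.1 s hs).mul_left c
  · refine (H.2.const_mul c).congr' ?_
    filter_upwards with s
    rw [← mul_div_assoc, ← tsum_mul_left]
    simp [mul_assoc]

theorem mean_sum {ι : Type} (s : Finset ι) (G : ι → P → ℝ) (m : ι → ℝ)
    (H : ∀ i ∈ s, HasMean P (G i) (m i)) :
    HasMean P (fun p => ∑ i ∈ s, G i p) (∑ i ∈ s, m i) := by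
  classical
  induction s using Finset.induction_on with
  | empty =>
    refine ⟨fun s _ => ?_, ?_⟩
    · simpa using summable_zero
    · simp
  | insert i s hi ih =>
    have h1 := mean_add (H i (Finset.mem_insert_self i s))
      (ih fun j hj => H j (Finset.mem_insert_of_mem hj))
    simpa [Finset.sum_insert hi] using h1

theorem mean_one (hP : P.Nonempty) (hp : ∀ p ∈ P, p.Prime) :
    HasMean P (fun _ => 1) 1 := by
  have hsum : ∀ s : ℝ, 1 < s → Summable fun p : P => ((p : ℕ) : ℝ) ^ (-s) := fun s hs =>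
    (Real.summable_nat_rpow.2 (by linarith : -s < -1)).subtype P
  refine ⟨fun s hs => ?_, ?_⟩
  · simpa using hsum s hs
  · refine tendsto_const_nhds.congr' ?_
    filter_upwards [self_mem_nhdsWithin] with s hs
    obtain ⟨p, hpP⟩ := hP
    have hpos : 0 < ∑' p : P, ((p : ℕ) : ℝ) ^ (-s) := by
      refine (hsum s hs).tsum_pos (fun q => Real.rpow_nonneg (Nat.cast_nonneg _) _) ⟨p, hpP⟩ ?_
      exact Real.rpow_pos_of_pos (by exact_mod_cast (hp p hpP).pos) _
    simp only [one_mul]
    rw [div_self hpos.ne']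

theorem mean_nonneg (H : HasMean P g a) (hg : ∀ p, 0 ≤ g p) : 0 ≤ a := by
  refine ge_of_tendsto' H.2 fun s => ?_
  exact div_nonneg (tsum_nonneg fun p => mul_nonneg (hg p) (Real.rpow_nonneg (Nat.cast_nonneg _) _))
    (tsum_nonneg fun p => Real.rpow_nonneg (Nat.cast_nonneg _) _)

theorem mean_squeeze (H : HasMean P h 0) (hg : ∀ p, 0 ≤ g p) (hh : ∀ p, g p ≤ h p) :
    HasMean P g 0 := by
  have hs : ∀ s : ℝ, 1 < s → Summable fun p : P => g p * ((p : ℕ) : ℝ) ^ (-s) := fun s hs =>
    Summable.of_nonneg_of_le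
      (fun p => mul_nonneg (hg p) (Real.rpow_nonneg (Nat.cast_nonneg _) _))
      (fun p => mul_le_mul_of_nonneg_right (hh p) (Real.rpow_nonneg (Nat.cast_nonneg _) _))
      (H.1 s hs)
  refine ⟨hs, ?_⟩
  refine tendsto_of_tendsto_of_tendsto_of_le_of_le' tendsto_const_nhds H.2 ?_ ?_
  · filter_upwards with s
    exact div_nonneg
      (tsum_nonneg fun p => mul_nonneg (hg p) (Real.rpow_nonneg (Nat.cast_nonneg _) _))
      (tsum_nonneg fun p => Real.rpow_nonneg (Nat.cast_nonneg _) _)
  · filter_upwards [self_mem_nhdsWithin] with s hs'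
    refine div_le_div_of_nonneg_right ?_
      (tsum_nonneg fun p => Real.rpow_nonneg (Nat.cast_nonneg _) _)
    exact (hs s hs').tsum_le_tsum
      (fun p => mul_le_mul_of_nonneg_right (hh p) (Real.rpow_nonneg (Nat.cast_nonneg _) _))
      (H.1 s hs')

theorem mean_unique (H : HasMean P g a) (H' : HasMean P g b) : a = b :=
  tendsto_nhds_unique H.2 H'.2

end MEAN

end Pool.Agent.Maass
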