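import Pool.Agent.Lib_helper56.Maass2.Core
import Pool.Agent.Lib_helper56.Maass2.MEAN

namespace Pool.Agent.Maass

open Filter Topology NumberField

theorem dens_abs {P : Set ℕ} {r e : P → ℝ} (H : HasMean P r 0) (h : ∀ p, |e p| ≤ r p) :
    HasMean P e 0 := by
  have h1 : HasMean P (fun p => 2 * r p) (2 * 0) := mean_const_mul 2 H
  rw [mul_zero] at h1
  have h2 : HasMean P (fun p => e p + r p) 0 := by
    refine mean_squeeze h1 (fun p => ?_) (fun p => ?_)
    · have := neg_abs_le (e p); have := h p; linarith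
    · have := le_abs_self (e p); have := h p; linarith
  have h3 := mean_add h2 (mean_const_mul (-1) H)
  convert h3 using 2
  · ring
  · ring

theorem dens_goldenRatio_sq : Real.goldenRatio ^ 2 = (3 + √5) / 2 := by
  rw [Real.goldenRatio_sq, Real.goldenRatio]; ring

theorem dens_goldenRatio_inv_sq : Real.goldenRatio⁻¹ ^ 2 = (3 - √5) / 2 := by
  rw [Real.inv_goldenRatio, Real.goldenConj]
  have : √5 ^ 2 = 5 := Real.sq_sqrt (by norm_num)
  nlinarith

/-- means of polynomials in `t, t'` -/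
theorem dens_poly {P : Set ℕ} (t t' : P → ℝ)
    (m0 : HasMean P (fun _ => 1) 1)
    (m1 : HasMean P t 1) (m2 : HasMean P (fun p => t p ^ 2) 2)
    (m3 : HasMean P (fun p => t p ^ 3) 5) (m4 : HasMean P (fun p => t p ^ 4) 14)
    (m1' : HasMean P t' 1) (m2' : HasMean P (fun p => t' p ^ 2) 2)
    (m3' : HasMean P (fun p => t' p ^ 3) 5) (m4' : HasMean P (fun p => t' p ^ 4) 14)
    (mm : HasMean P (fun p => t p * t' p) 1) (c0 c1 c2 c3 c4 d1 d2 d3 d4 e : ℝ) :
    HasMean P (fun p => c0 + c1 * t p + c2 * t p ^ 2 + c3 * t p ^ 3 + c4 * t p ^ 4 +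
      d1 * t' p + d2 * t' p ^ 2 + d3 * t' p ^ 3 + d4 * t' p ^ 4 + e * (t p * t' p))
      (c0 + c1 + 2 * c2 + 5 * c3 + 14 * c4 + d1 + 2 * d2 + 5 * d3 + 14 * d4 + e) := by
  have := mean_add (mean_add (mean_add (mean_add (mean_add (mean_add (mean_add (mean_add (mean_add
    (mean_const_mul c0 m0) (mean_const_mul c1 m1)) (mean_const_mul c2 m2)) (mean_const_mul c3 m3))
    (mean_const_mul c4 m4)) (mean_const_mul d1 m1')) (mean_const_mul d2 m2'))
    (mean_const_mul d3 m3')) (mean_const_mul d4 m4')) (mean_const_mul e mm)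
  convert this using 1
  · funext p; ring
  · ring

/-- the function with values `c0 + c1 n + c2 n^2 + c3 n^3 + c4 n^4` on the rational part and `0` on the other part -/
theorem dens_R {P : Set ℕ} (t t' : P → ℝ)
    (m0 : HasMean P (fun _ => 1) 1)
    (m1 : HasMean P t 1) (m2 : HasMean P (fun p => t p ^ 2) 2)
    (m3 : HasMean P (fun p => t p ^ 3) 5) (m4 : HasMean P (fun p => t p ^ 4) 14)
    (m1' : HasMean P t' 1) (m2' : HasMean P (fun p => t' p ^ 2) 2)
    (m3' : HasMean P (fun p => t' p ^ 3) 5) (m4' : HasMean P (fun p => t' p ^ 4) 14)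
    (mm : HasMean P (fun p => t p * t' p) 1) (c0 c1 c2 c3 c4 : ℝ) :
    HasMean P (fun p => c0 + c1 * ((t p + t' p) / 2) + c2 * ((t p ^ 2 + t' p ^ 2) / 2) +
      c3 * ((t p ^ 3 + t' p ^ 3) / 2) + c4 * ((t p ^ 4 + t' p ^ 4) / 2) -
      (c0 + 3 / 2 * c1 + 7 / 2 * c2 + 9 * c3 + 47 / 2 * c4) * ((t p - t' p) ^ 2 / 5))
      ((3 * c0 + 2 * c1 + 3 * c2 + 7 * c3 + 23 * c4) / 5) := by
  have := dens_poly t t' m0 m1 m2 m3 m4 m1' m2' m3' m4' mm c0 (c1 / 2)
    (c2 / 2 - (c0 + 3 / 2 * c1 + 7 / 2 * c2 + 9 * c3 + 47 / 2 * c4) / 5) (c3 / 2) (c4 / 2)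
    (c1 / 2) (c2 / 2 - (c0 + 3 / 2 * c1 + 7 / 2 * c2 + 9 * c3 + 47 / 2 * c4) / 5) (c3 / 2) (c4 / 2)
    (2 * (c0 + 3 / 2 * c1 + 7 / 2 * c2 + 9 * c3 + 47 / 2 * c4) / 5)
  convert this using 2
  · ring
  · ring

/-- value on the irrational part -/
theorem dens_val_A {x y : ℝ} (h1 : x + y = 3) (h2 : x * y = 1) (c0 c1 c2 c3 c4 : ℝ) :
    c0 + c1 * ((x + y) / 2) + c2 * ((x ^ 2 + y ^ 2) / 2) +
      c3 * ((x ^ 3 + y ^ 3) / 2) + c4 * ((x ^ 4 + y ^ 4) / 2) -
      (c0 + 3 / 2 * c1 + 7 / 2 * c2 + 9 * c3 + 47 / 2 * c4) * ((x - y) ^ 2 / 5) = 0 := by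
  have e2 : x ^ 2 + y ^ 2 = 7 := by nlinarith
  have e3 : x ^ 3 + y ^ 3 = 18 := by
    have : x ^ 3 + y ^ 3 = (x + y) ^ 3 - 3 * (x * y) * (x + y) := by ring
    rw [this, h1, h2]; norm_num
  have e4 : x ^ 4 + y ^ 4 = 47 := by
    have : x ^ 4 + y ^ 4 = (x ^ 2 + y ^ 2) ^ 2 - 2 * (x * y) ^ 2 := by ring
    rw [this, e2, h2]; norm_num
  have e5 : (x - y) ^ 2 = 5 := by
    have : (x - y) ^ 2 = (x + y) ^ 2 - 4 * (x * y) := by ring
    rw [this, h1, h2]; norm_num
  rw [h1, e2, e3, e4, e5]; ring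

theorem dens_A_root {x y : ℝ} (h1 : x + y = 3) (h2 : x * y = 1) :
    (x = (3 + √5) / 2 ∧ y = (3 - √5) / 2) ∨ (x = (3 - √5) / 2 ∧ y = (3 + √5) / 2) := by
  have h5 : √5 ^ 2 = 5 := Real.sq_sqrt (by norm_num)
  have : (x - (3 + √5) / 2) * (x - (3 - √5) / 2) = 0 := by
    have hy : y = 3 - x := by linarith
    rw [hy] at h2
    nlinarith
  rcases mul_eq_zero.1 this with h | h
  · left; constructor <;> linarith
  · right; constructor <;> linarith

theorem dens_sqrt5 : (2.2 : ℝ) < √5 ∧ √5 < 2.3 := by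
  constructor
  · rw [show (2.2 : ℝ) = √(2.2 ^ 2) by rw [Real.sqrt_sq (by norm_num)]]
    exact Real.sqrt_lt_sqrt (by norm_num) (by norm_num)
  · rw [show (2.3 : ℝ) = √(2.3 ^ 2) by rw [Real.sqrt_sq (by norm_num)]]
    exact Real.sqrt_lt_sqrt (by norm_num) (by norm_num)

/-- no natural number is `(3 ± √5)/2` -/
theorem dens_nat_ne (n : ℕ) : (n : ℝ) ≠ (3 + √5) / 2 ∧ (n : ℝ) ≠ (3 - √5) / 2 := by
  obtain ⟨h1, h2⟩ := dens_sqrt5
  constructor
  · intro h
    have a1 : (n : ℝ) < 3 := by linarith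
    have a2 : (2 : ℝ) < n := by linarith
    have b1 : n < 3 := by exact_mod_cast a1
    have b2 : 2 < n := by exact_mod_cast a2
    omega
  · intro h
    have a1 : (n : ℝ) < 1 := by linarith
    have a2 : (0 : ℝ) < n := by linarith
    have b1 : n < 1 := by exact_mod_cast a1
    have b2 : 0 < n := by exact_mod_cast a2
    omega

open Classical in
theorem dens {P : Set ℕ} (t t' : P → ℝ)
    (ht : ∀ p, (t p = t' p ∧ ∃ n : ℕ, t p = n) ∨ (t p + t' p = 3 ∧ t p * t' p = 1))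
    (m0 : HasMean P (fun _ => 1) 1)
    (m1 : HasMean P t 1) (m2 : HasMean P (fun p => t p ^ 2) 2)
    (m3 : HasMean P (fun p => t p ^ 3) 5) (m4 : HasMean P (fun p => t p ^ 4) 14)
    (m1' : HasMean P t' 1) (m2' : HasMean P (fun p => t' p ^ 2) 2)
    (m3' : HasMean P (fun p => t' p ^ 3) 5) (m4' : HasMean P (fun p => t' p ^ 4) 14)
    (mm : HasMean P (fun p => t p * t' p) 1) :
    HasMean P (fun p => if t p = 0 then 1 else 0) (1 / 4) ∧
    HasMean P (fun p => if t p = 1 then 1 else 0) (1 / 3) ∧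
    HasMean P (fun p => if t p = 4 then 1 else 0) (1 / 60) ∧
    HasMean P (fun p => if t p = Real.goldenRatio ^ 2 then 1 else 0) (1 / 5) ∧
    HasMean P (fun p => if t p = Real.goldenRatio⁻¹ ^ 2 then 1 else 0) (1 / 5) := by
  have HR := dens_R t t' m0 m1 m2 m3 m4 m1' m2' m3' m4' mm
  have Hr := HR 0 (-16) 24 (-9) 1
  rw [show ((3 * 0 + 2 * (-16) + 3 * 24 + 7 * (-9) + 23 * 1) / 5 : ℝ) = 0 by norm_num] at Hr
  obtain ⟨s1, s2⟩ := dens_sqrt5
  -- a general principle
  have key : ∀ (f : ℝ → ℝ) (c0 c1 c2 : ℝ), f ((3 + √5) / 2) = 0 → f ((3 - √5) / 2) = 0 →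
      (∀ n : ℕ, |f n - (c0 + c1 * n + c2 * n ^ 2)| ≤ (n : ℝ) * (n - 1) * (n - 4) ^ 2) →
      HasMean P (fun p => f (t p)) ((3 * c0 + 2 * c1 + 3 * c2) / 5) := by
    intro f c0 c1 c2 f1 f2 hf
    have H1 := HR c0 c1 c2 0 0
    have H2 : HasMean P (fun p => f (t p) - (c0 + c1 * ((t p + t' p) / 2) +
        c2 * ((t p ^ 2 + t' p ^ 2) / 2) +
        0 * ((t p ^ 3 + t' p ^ 3) / 2) + 0 * ((t p ^ 4 + t' p ^ 4) / 2) -
        (c0 + 3 / 2 * c1 + 7 / 2 * c2 + 9 * 0 + 47 / 2 * 0) * ((t p - t' p) ^ 2 / 5))) 0 := by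
      refine dens_abs Hr (fun p => ?_)
      rcases ht p with ⟨h1, n, hn⟩ | ⟨h1, h2⟩
      · rw [← h1, hn]
        have := hf n
        have e1 : f n - (c0 + c1 * (((n : ℝ) + n) / 2) + c2 * (((n : ℝ) ^ 2 + n ^ 2) / 2) +
          0 * (((n : ℝ) ^ 3 + n ^ 3) / 2) + 0 * (((n : ℝ) ^ 4 + n ^ 4) / 2) -
          (c0 + 3 / 2 * c1 + 7 / 2 * c2 + 9 * 0 + 47 / 2 * 0) * (((n : ℝ) - n) ^ 2 / 5)) =
          f n - (c0 + c1 * n + c2 * n ^ 2) := by ring
        rw [e1]
        refine this.trans (le_of_eq ?_)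
        ring
      · rw [dens_val_A h1 h2, dens_val_A h1 h2]
        rcases dens_A_root h1 h2 with ⟨h3, _⟩ | ⟨h3, _⟩
        · rw [h3, f1]; simp
        · rw [h3, f2]; simp
    have H3 := mean_add H1 H2
    convert H3 using 2
    · ring
    · ring
  have HA := dens_poly t t' m0 m1 m2 m3 m4 m1' m2' m3' m4' mm
  refine ⟨?_, ?_, ?_, ?_, ?_⟩
  · have := key (fun x => if x = 0 then 1 else 0) 1 (-(4 / 3) + 1 / 12) (1 / 3 - 1 / 12)
      (if_neg (by intro h; linarith)) (if_neg (by intro h; linarith)) ?_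
    · convert this using 1; norm_num
    · intro n
      rcases Nat.lt_or_ge n 5 with hn | hn
      · interval_cases n <;> norm_num [abs_le]
      · have hn' : (5 : ℝ) ≤ n := by exact_mod_cast hn
        have : (n : ℝ) ≠ 0 := by positivity
        simp only [this, if_false]
        rw [abs_le]
        obtain ⟨x, hx⟩ : ∃ x : ℝ, (n : ℝ) = x + 5 := ⟨n - 5, by ring⟩
        have hx0 : 0 ≤ x := by linarith
        rw [hx]
        have := mul_nonneg hx0 hx0
        have := mul_nonneg this hx0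
        have := mul_nonneg this hx0
        constructor <;> nlinarith
  · have := key (fun x => if x = 1 then 1 else 0) 0 (4 / 3) (-(1 / 3))
      (if_neg (by intro h; linarith)) (if_neg (by intro h; linarith)) ?_
    · convert this using 1; norm_num
    · intro n
      rcases Nat.lt_or_ge n 5 with hn | hn
      · interval_cases n <;> norm_num [abs_le]
      · have hn' : (5 : ℝ) ≤ n := by exact_mod_cast hn
        have : (n : ℝ) ≠ 1 := by intro h; linarith
        simp only [this, if_false]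
        rw [abs_le]
        obtain ⟨x, hx⟩ : ∃ x : ℝ, (n : ℝ) = x + 5 := ⟨n - 5, by ring⟩
        have hx0 : 0 ≤ x := by linarith
        rw [hx]
        have := mul_nonneg hx0 hx0
        have := mul_nonneg this hx0
        have := mul_nonneg this hx0
        constructor <;> nlinarith
  · have := key (fun x => if x = 4 then 1 else 0) 0 (-(1 / 12)) (1 / 12)
      (if_neg (by intro h; linarith)) (if_neg (by intro h; linarith)) ?_
    · convert this using 1; norm_num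
    · intro n
      rcases Nat.lt_or_ge n 5 with hn | hn
      · interval_cases n <;> norm_num [abs_le]
      · have hn' : (5 : ℝ) ≤ n := by exact_mod_cast hn
        have : (n : ℝ) ≠ 4 := by intro h; linarith
        simp only [this, if_false]
        rw [abs_le]
        obtain ⟨x, hx⟩ : ∃ x : ℝ, (n : ℝ) = x + 5 := ⟨n - 5, by ring⟩
        have hx0 : 0 ≤ x := by linarith
        rw [hx]
        have := mul_nonneg hx0 hx0
        have := mul_nonneg this hx0
        have := mul_nonneg this hx0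
        constructor <;> nlinarith
  · rw [dens_goldenRatio_sq]
    have := HA 0 (1 / (2 * √5)) (1 / 10) 0 0 (-(1 / (2 * √5))) (1 / 10) 0 0 (-(1 / 5))
    convert this using 2 with p
    · have h5 : √5 ^ 2 = 5 := Real.sq_sqrt (by norm_num)
      have h50 : √5 ≠ 0 := by positivity
      rcases ht p with ⟨h1, n, hn⟩ | ⟨h1, h2⟩
      · rw [← h1, hn, if_neg (dens_nat_ne n).1]; field_simp; ring
      · rcases dens_A_root h1 h2 with ⟨h3, h4⟩ | ⟨h3, h4⟩
        · rw [if_pos h3, h3, h4]; field_simp; nlinarith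
        · rw [if_neg (by rw [h3]; intro h; linarith), h3, h4]; field_simp; nlinarith
    · ring
  · rw [dens_goldenRatio_inv_sq]
    have := HA 0 (-(1 / (2 * √5))) (1 / 10) 0 0 (1 / (2 * √5)) (1 / 10) 0 0 (-(1 / 5))
    convert this using 2 with p
    · have h5 : √5 ^ 2 = 5 := Real.sq_sqrt (by norm_num)
      have h50 : √5 ≠ 0 := by positivity
      rcases ht p with ⟨h1, n, hn⟩ | ⟨h1, h2⟩
      · rw [← h1, hn, if_neg (dens_nat_ne n).2]; field_simp; ring
      · rcases dens_A_root h1 h2 with ⟨h3, h4⟩ | ⟨h3, h4⟩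
        · rw [if_neg (by rw [h3]; intro h; linarith), h3, h4]; field_simp; nlinarith
        · rw [if_pos h3, h3, h4]; field_simp; nlinarith
    · ring

end Pool.Agent.Maass
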