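import Mathlib

/-!
# Cusp forms on `GL_2` with integral Hecke eigenvalues in a number field: definitions

(MP_ef641d_nt.)  A family `f_τ`, `τ : L →+* ℂ`, of conjugate cuspidal automorphic representations of
`GL_2` over `ℚ`, with unitary central characters `τ ∘ om` (Dirichlet characters modulo `M`), all
unramified at the primes of `P`; the Satake parameters of `f_τ` at `p` have sum `τ (lam p)` and product
`τ (om p)`.  The analytic input (Rankin-Selberg theory of the symmetric powers, due to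
Gelbart-Jacquet, Kim-Shahidi, Kim, Ramakrishnan) is stated as Dirichlet mean values.
-/

namespace Pool.Agent.Maass

open Filter Topology NumberField

/-- `g : P → ℝ` has Dirichlet mean value `m`: `∑ g(p) p^{-s} / ∑ p^{-s} → m` as `s → 1+`, all the
series being (absolutely) convergent for `s > 1`. -/
def HasMean (P : Set ℕ) (g : P → ℝ) (m : ℝ) : Prop :=
  (∀ s : ℝ, 1 < s → Summable fun p : P => g p * ((p : ℕ) : ℝ) ^ (-s)) ∧
  Tendsto (fun s : ℝ => (∑' p : P, g p * ((p : ℕ) : ℝ) ^ (-s)) /
    ∑' p : P, ((p : ℕ) : ℝ) ^ (-s)) (𝓝[>] 1) (𝓝 m)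

open Classical in
/-- Dirichlet density of a subset `S` of `P`. -/
def HasDensity (P : Set ℕ) (S : Set P) (δ : ℝ) : Prop :=
  HasMean P (fun p => if p ∈ S then 1 else 0) δ

/-- the elements of `P` congruent to `1` modulo `N` -/
def PN (P : Set ℕ) (N : ℕ) : Set ℕ := {p | p ∈ P ∧ p ≡ 1 [MOD N]}

/-- `g : P → ℝ` has Dirichlet mean value `m` on the `p ∈ P` with `p ≡ 1 (mod N)` -/
def HasMeanN (P : Set ℕ) (N : ℕ) (g : P → ℝ) (m : ℝ) : Prop :=
  HasMean (PN P N) (fun p => g ⟨p.1, p.2.1⟩) m

/-- trace of the adjoint (three dimensional) representation on an element of `SU(2)` with trace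
`x` -/
def U2 (x : ℝ) : ℝ := x ^ 2 - 1

/-- trace of the symmetric cube on an element of `SU(2)` with trace `x` -/
def U3 (x : ℝ) : ℝ := x ^ 3 - 2 * x

/-- trace of the symmetric fourth power on an element of `SU(2)` with trace `x` -/
def U4 (x : ℝ) : ℝ := x ^ 4 - 3 * x ^ 2 + 1

/-- absolute value of the Hecke eigenvalue of `f_τ` at `p` -/
noncomputable def av {L : Type} [Field L] {P : Set ℕ} (lam : P → L) (τ : L →+* ℂ) (p : P) : ℝ :=
  ‖τ (lam p)‖

/-- trace of the symmetric cube of the Satake class at `p` of `f_τ`: `λ^3 - 2 ω λ` -/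
noncomputable def V3 {L : Type} [Field L] {P : Set ℕ} {M : ℕ} (om : DirichletCharacter L M)
    (lam : P → L) (τ : L →+* ℂ) (p : P) : ℂ :=
  τ (lam p) ^ 3 - 2 * τ (om ((p : ℕ) : ZMod M)) * τ (lam p)

/-- The analytic facts about a family `(f_τ)` of conjugate cuspidal automorphic representations of
`GL_2` over `ℚ`, none of which is of solvable polyhedral type, unramified at all `p ∈ P`, with
integral Hecke eigenvalues `τ (lam p)` and central characters `τ ∘ om`. -/
structure GL2System (L : Type) [Field L] [NumberField L] (P : Set ℕ) (M : ℕ)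
    (om : DirichletCharacter L M) (lam : P → L) : Prop where
  /-- `P` consists of primes not dividing the conductor -/
  prime : ∀ p ∈ P, p.Prime ∧ p.Coprime M
  pos : 0 < M
  /-- the eigenvalues are algebraic integers -/
  integral : ∀ p, IsIntegral ℤ (lam p)
  /-- the contragredient of `f_τ` is its complex conjugate -/
  unitary : ∀ (τ : L →+* ℂ) (p : P),
    τ (lam p) = τ (om ((p : ℕ) : ZMod M)) * (starRingEnd ℂ) (τ (lam p))
  /-- `Ad f_τ`, `Sym^3 f_τ`, `A^4 f_τ` are cuspidal, also after twisting by Dirichlet characters -/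
  self : ∀ (τ : L →+* ℂ) (N : ℕ), 0 < N →
    HasMeanN P N (fun p => U2 (av lam τ p)) 0 ∧
    HasMeanN P N (fun p => U4 (av lam τ p)) 0 ∧
    HasMeanN P N (fun p => U2 (av lam τ p) ^ 2) 1 ∧
    HasMeanN P N (fun p => ‖V3 om lam τ p‖ ^ 2) 1 ∧
    HasMeanN P N (fun p => U4 (av lam τ p) ^ 2) 1 ∧
    HasMeanN P N (fun p => U2 (av lam τ p) * U4 (av lam τ p)) 0
  /-- two conjugates: they are twists of each other, or their adjoint lifts are different
  (multiplicity one for `SL_2`), and then their symmetric cubes (fourth powers) are twist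
  equivalent (equal), or are orthogonal, also after twisting by Dirichlet characters -/
  pair : ∀ τ τ' : L →+* ℂ,
    (∃ (N : ℕ) (χ : DirichletCharacter ℂ N), 0 < N ∧
      ∀ p : P, τ (lam p) = χ ((p : ℕ) : ZMod N) * τ' (lam p) ∧ (p : ℕ).Coprime N) ∨
    ((∀ N : ℕ, 0 < N → HasMeanN P N (fun p => U2 (av lam τ p) * U2 (av lam τ' p)) 0) ∧
     ((∃ (N : ℕ) (χ : DirichletCharacter ℂ N), 0 < N ∧
        ∀ p : P, V3 om lam τ p = χ ((p : ℕ) : ZMod N) * V3 om lam τ' p ∧
          U4 (av lam τ p) = U4 (av lam τ' p)) ∨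
      ∀ N : ℕ, 0 < N → HasMeanN P N
        (fun p => (V3 om lam τ p * (starRingEnd ℂ) (V3 om lam τ' p)).re) 0) ∧
     ((∀ p : P, U4 (av lam τ p) = U4 (av lam τ' p)) ∨
      ∀ N : ℕ, 0 < N → HasMeanN P N (fun p => U4 (av lam τ p) * U4 (av lam τ' p)) 0))

end Pool.Agent.Maass
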