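import Pool.Agent.Lib_helper56.Maass2.Core
import Pool.Agent.Lib_helper56.Maass2.BASIC

namespace Pool.Agent.Maass

open Filter Topology NumberField

variable {K L : Type} [Field K] [NumberField K] [Field L] [NumberField L] [Algebra K L]

theorem iso_int {a : L} {b : K} (h : Pt K L a b) : IsIntegral ℤ b := by
  have h1 : IsIntegral ℤ (algebraMap K L b) := by
    rw [h.sq]
    exact h.int.pow 2
  exact (isIntegral_algebraMap_iff (algebraMap K L).injective).mp h1

theorem iso_refl {b : K} {φ φ' : K →+* ℂ} (hs : φ b + φ' b = 3) (ψ : K →+* ℂ) :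
    ∃ χ : K →+* ℂ, χ b = 3 - ψ b := by
  have h0 : Polynomial.aeval (φ b) (minpoly ℚ b) = 0 := by
    have := Polynomial.hom_eval₂ (minpoly ℚ b) (algebraMap ℚ K) φ b
    rw [← Polynomial.aeval_def, minpoly.aeval, map_zero] at this
    rw [Polynomial.aeval_def, this]
    congr 1
    exact Subsingleton.elim _ _
  set m' : Polynomial ℚ := (minpoly ℚ b).comp (3 - Polynomial.X) with hm'
  have h1 : ∀ (z : ℂ), Polynomial.aeval z m' = Polynomial.aeval (3 - z) (minpoly ℚ b) := by
    intro z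
    rw [hm', Polynomial.aeval_comp]
    congr 2
    rw [map_sub, Polynomial.aeval_X, map_ofNat]
  have h2 : Polynomial.aeval b m' = 0 := by
    apply φ'.injective
    rw [map_zero]
    have := Polynomial.hom_eval₂ m' (algebraMap ℚ K) φ' b
    rw [← Polynomial.aeval_def] at this
    rw [this]
    have e : φ'.comp (algebraMap ℚ K) = algebraMap ℚ ℂ := Subsingleton.elim _ _
    rw [e, ← Polynomial.aeval_def, h1]
    rw [show (3 : ℂ) - φ' b = φ b by rw [← hs]; ring]
    exact h0
  have h3 : Polynomial.aeval (3 - ψ b) (minpoly ℚ b) = 0 := by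
    rw [← h1]
    have := Polynomial.hom_eval₂ m' (algebraMap ℚ K) ψ b
    rw [← Polynomial.aeval_def, h2, map_zero] at this
    rw [Polynomial.aeval_def]
    have e : ψ.comp (algebraMap ℚ K) = algebraMap ℚ ℂ := Subsingleton.elim _ _
    rw [← e]
    exact this.symm
  have h4 : (3 - ψ b) ∈ (minpoly ℚ b).rootSet ℂ := by
    rw [Polynomial.mem_rootSet]
    exact ⟨minpoly.ne_zero (Algebra.IsIntegral.isIntegral b), h3⟩
  rw [← NumberField.Embeddings.range_eval_eq_rootSet_minpoly] at h4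
  exact h4

theorem iso_cubic {y : ℝ} (h0 : 0 ≤ y) (h1 : y ≤ 9 / 4) : |y * (y - 1) * (y - 2)| < 1 := by
  rw [abs_lt]
  constructor
  · nlinarith [mul_nonneg h0 (sq_nonneg (y - 3 / 2)), sq_nonneg (y - 3 / 2), mul_nonneg h0 h0,
      mul_nonneg h0 (sq_nonneg (y - 1.6))]
  · nlinarith [mul_nonneg h0 (sq_nonneg (y - 1)), mul_nonneg h0 (sub_nonneg.mpr h1),
      mul_nonneg (mul_nonneg h0 h0) (sub_nonneg.mpr h1)]

/-- block ISO -/
theorem iso_one {a : L} {b : K} (h : Pt K L a b) {φ φ' : K →+* ℂ}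
    (e : U4 (lft K L φ a).re = U4 (lft K L φ' a).re) (ne : φ b ≠ φ' b) :
    b ^ 2 - 3 * b + 1 = 0 ∧ φ b + φ' b = 3 := by
  have hx := pt_sq h φ
  have hy := pt_sq h φ'
  set x := (lft K L φ a).re
  set y := (lft K L φ' a).re
  have hsum : x ^ 2 + y ^ 2 = 3 := by
    have h1 : (x ^ 2 - y ^ 2) * (x ^ 2 + y ^ 2 - 3) = 0 := by
      simp only [U4] at e
      linear_combination e
    rcases mul_eq_zero.mp h1 with h2 | h2
    · exfalso
      apply ne
      rw [hx, hy, sub_eq_zero.mp h2]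
    · linarith
  have hs : φ b + φ' b = 3 := by
    rw [hx, hy, ← Complex.ofReal_add, hsum]
    norm_num
  refine ⟨?_, hs⟩
  have hrange : ∀ ψ : K →+* ℂ, ∃ s : ℝ, 0 ≤ s ∧ s ≤ 3 ∧ ψ b = (s : ℂ) := by
    intro ψ
    obtain ⟨χ, hχ⟩ := iso_refl hs ψ
    have h1 := pt_sq h ψ
    have h2 := pt_sq h χ
    refine ⟨(lft K L ψ a).re ^ 2, sq_nonneg _, ?_, h1⟩
    rw [h1, h2] at hχ
    have h3 : (lft K L χ a).re ^ 2 = 3 - (lft K L ψ a).re ^ 2 := by
      exact_mod_cast hχ
    nlinarith [sq_nonneg (lft K L χ a).re]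
  have hbi := iso_int h
  set c := b * (3 - b) with hc
  have i3 : IsIntegral ℤ (3 : K) := by
    have := isIntegral_algebraMap (R := ℤ) (A := K) (x := 3)
    simpa using this
  have hci : IsIntegral ℤ c := hbi.mul (i3.sub hbi)
  have hdi : IsIntegral ℤ (c * (c - 1) * (c - 2)) := by
    have i1 : IsIntegral ℤ (1 : K) := isIntegral_one
    have i2 : IsIntegral ℤ (2 : K) := by
      have := isIntegral_algebraMap (R := ℤ) (A := K) (x := 2)
      simpa using this
    exact (hci.mul (hci.sub i1)).mul (hci.sub i2)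
  have hd0 : c * (c - 1) * (c - 2) = 0 := by
    by_contra hne
    have h1 := one_le_prod hdi hne
    have h2 : ∏ ψ : K →+* ℂ, ‖ψ (c * (c - 1) * (c - 2))‖ < ∏ _ψ : K →+* ℂ, (1 : ℝ) := by
      refine Finset.prod_lt_prod_of_nonempty ?_ ?_ ⟨φ, Finset.mem_univ _⟩
      · intro ψ _
        exact norm_pos_iff.mpr fun h0 => hne (ψ.injective (by rw [h0, map_zero]))
      · intro ψ _
        obtain ⟨s, s0, s3, hs'⟩ := hrange ψ
        have h3 : ψ (c * (c - 1) * (c - 2)) =
            ((s * (3 - s) * (s * (3 - s) - 1) * (s * (3 - s) - 2) : ℝ) : ℂ) := by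
          simp only [hc, map_mul, map_sub, map_one, map_ofNat, hs']
          push_cast
          ring
        rw [h3, Complex.norm_real, Real.norm_eq_abs]
        exact iso_cubic (mul_nonneg s0 (by linarith)) (by nlinarith [sq_nonneg (s - 3 / 2)])
    rw [Finset.prod_const_one] at h2
    linarith
  have hn3 : ∀ q : K, (∃ m : ℕ, q = m) → b ≠ q := by
    rintro q ⟨m, rfl⟩ hb
    apply ne
    rw [hb, map_natCast, map_natCast]
  rcases mul_eq_zero.mp hd0 with h1 | h1
  · rcases mul_eq_zero.mp h1 with h2 | h2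
    · rcases mul_eq_zero.mp h2 with h3 | h3
      · exact absurd h3 (hn3 0 ⟨0, by simp⟩)
      · exact absurd (by linear_combination -h3) (hn3 3 ⟨3, by norm_num⟩)
    · linear_combination -h2
  · have h2 : (b - 1) * (b - 2) = 0 := by linear_combination -h1
    rcases mul_eq_zero.mp h2 with h3 | h3
    · exact absurd (sub_eq_zero.mp h3) (hn3 1 ⟨1, by norm_num⟩)
    · exact absurd (sub_eq_zero.mp h3) (hn3 2 ⟨2, by norm_num⟩)

/-- block ISO -/
theorem even_card {s : K} (hs : s ^ 2 = 5) :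
    ∃ n : ℕ, Fintype.card (K →+* ℂ) = 2 * n := by
  classical
  have hsi : IsIntegral ℤ s := by
    have i5 : IsIntegral ℤ (5 : K) := by
      have := isIntegral_algebraMap (R := ℤ) (A := K) (x := 5)
      simpa using this
    rw [← hs] at i5
    exact IsIntegral.of_pow (by norm_num) i5
  obtain ⟨m, hm⟩ := sum_int hsi
  have h5 : (Real.sqrt 5) ^ 2 = 5 := Real.sq_sqrt (by norm_num)
  have hval : ∀ φ : K →+* ℂ, φ s = ((if φ s = ((Real.sqrt 5 : ℝ) : ℂ) then (1 : ℝ) else -1) *
      Real.sqrt 5 : ℝ) := by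
    intro φ
    by_cases h : φ s = ((Real.sqrt 5 : ℝ) : ℂ)
    · rw [if_pos h, one_mul, h]
    · rw [if_neg h]
      have h1 : (φ s - ((Real.sqrt 5 : ℝ) : ℂ)) * (φ s + ((Real.sqrt 5 : ℝ) : ℂ)) = 0 := by
        have h2 : φ s ^ 2 = 5 := by rw [← map_pow, hs, map_ofNat]
        have h3 : ((Real.sqrt 5 : ℝ) : ℂ) ^ 2 = 5 := by
          rw [← Complex.ofReal_pow, h5, Complex.ofReal_ofNat]
        linear_combination h2 - h3
      rcases mul_eq_zero.mp h1 with h2 | h2
      · exact absurd (sub_eq_zero.mp h2) h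
      · push_cast
        linear_combination h2
  set k : ℤ := ∑ φ : K →+* ℂ, (if φ s = ((Real.sqrt 5 : ℝ) : ℂ) then (1 : ℤ) else -1) with hk
  have h1 : (k : ℝ) * Real.sqrt 5 = m := by
    have h2 : ((((k : ℝ) * Real.sqrt 5 : ℝ)) : ℂ) = ((m : ℝ) : ℂ) := by
      rw [Complex.ofReal_intCast m, ← hm, hk]
      rw [Finset.sum_congr rfl fun φ _ => hval φ]
      push_cast
      rw [Finset.sum_mul]
    exact_mod_cast h2
  have hk0 : k = 0 := by
    by_contra hne
    have hirr : Irrational (Real.sqrt 5) := by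
      have := (Nat.Prime.irrational_sqrt (p := 5) (by norm_num))
      simpa using this
    apply hirr
    refine ⟨(m : ℚ) / k, ?_⟩
    push_cast
    rw [← h1]
    field_simp
  have h2 : k = (Finset.univ.filter fun φ : K →+* ℂ => φ s = ((Real.sqrt 5 : ℝ) : ℂ)).card -
      ((Finset.univ.filter fun φ : K →+* ℂ => ¬ φ s = ((Real.sqrt 5 : ℝ) : ℂ)).card : ℤ) := by
    rw [hk, Finset.sum_ite]
    simp
    ring
  have h3 := Finset.card_filter_add_card_filter_not (s := (Finset.univ : Finset (K →+* ℂ)))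
    (fun φ : K →+* ℂ => φ s = ((Real.sqrt 5 : ℝ) : ℂ))
  rw [Finset.card_univ] at h3
  refine ⟨(Finset.univ.filter fun φ : K →+* ℂ => φ s = ((Real.sqrt 5 : ℝ) : ℂ)).card, ?_⟩
  omega

end Pool.Agent.Maass
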