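import Pool.Agent.Lib_helper56.Maass2.Core
import Pool.Agent.Lib_helper56.Maass2.BASIC

/-! Blocks LOW, LOW5, LOW2 (MP_ef641d_nt). -/

namespace Pool.Agent.Maass

open Filter Topology NumberField

section
variable {K L : Type} [Field K] [NumberField K] [Field L] [NumberField L] [Algebra K L]

theorem low_lft (φ : K →+* ℂ) (b : K) : lft K L φ (algebraMap K L b) = φ b := by
  have : Algebra.IsAlgebraic K L := Algebra.IsAlgebraic.tower_top (K := ℚ) K
  exact ComplexEmbedding.lift_algebraMap_apply L φ b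

theorem low_int {a : L} {b : K} (h : Pt K L a b) : IsIntegral ℤ b := by
  have h1 : IsIntegral ℤ (algebraMap K L b) := by
    rw [h.sq]
    exact h.int.pow 2
  exact (isIntegral_algebraMap_iff (algebraMap K L).injective).mp h1

theorem low_nat (n : ℕ) : IsIntegral ℤ (n : K) := by
  have := isIntegral_algebraMap (R := ℤ) (A := K) (x := (n : ℤ))
  simpa using this

/-- `β = 0` -/
theorem low_zero {a : L} {b : K} (h : Pt K L a b) (hb : b = 0) :
    SS K L U2 a = - (Fintype.card (K →+* ℂ) : ℝ) ∧ SS K L U3 a = 0 ∧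
    SS K L U4 a = (Fintype.card (K →+* ℂ) : ℝ) := by
  have ha : a = 0 := by
    have h1 := h.sq
    rw [hb, map_zero] at h1
    exact pow_eq_zero_iff (two_ne_zero) |>.mp h1.symm
  subst ha
  unfold SS U2 U3 U4
  simp

theorem low_const (U : ℝ → ℝ) (a : L) (c : ℝ) (h : ∀ φ : K →+* ℂ, U ((lft K L φ a).re) = c) :
    SS K L U a = (Fintype.card (K →+* ℂ) : ℝ) * c := by
  unfold SS
  rw [Finset.sum_congr rfl fun φ _ => h φ, Finset.sum_const, nsmul_eq_mul, Finset.card_univ]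

/-- `β = 1` -/
theorem low_one {a : L} {b : K} (h : Pt K L a b) (hb : b = 1) :
    SS K L U2 a = 0 ∧ SS K L U3 a ^ 2 = (Fintype.card (K →+* ℂ) : ℝ) ^ 2 ∧
    SS K L U4 a = - (Fintype.card (K →+* ℂ) : ℝ) := by
  have ha : a = 1 ∨ a = -1 := by
    have h1 := h.sq
    rw [hb, map_one] at h1
    exact sq_eq_one_iff.mp h1.symm
  obtain ⟨ε, hε, hx⟩ : ∃ ε : ℝ, ε ^ 2 = 1 ∧ ∀ φ : K →+* ℂ, (lft K L φ a).re = ε := by
    rcases ha with ha | ha
    · exact ⟨1, by norm_num, fun φ => by rw [ha]; simp⟩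
    · exact ⟨-1, by norm_num, fun φ => by rw [ha]; simp⟩
  have h2 := low_const (K := K) U2 a 0 (fun φ => by rw [hx φ]; unfold U2; rw [hε]; ring)
  have h3 := low_const (K := K) U3 a (-ε) (fun φ => by
    rw [hx φ]; unfold U3; rw [pow_succ, hε]; ring)
  have h4 := low_const (K := K) U4 a (-1) (fun φ => by
    rw [hx φ]; unfold U4
    have : ε ^ 4 = (ε ^ 2) ^ 2 := by ring
    rw [this, hε]; norm_num)
  refine ⟨by rw [h2, mul_zero], ?_, by rw [h4]; ring⟩
  rw [h3]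
  have : ((Fintype.card (K →+* ℂ) : ℝ) * -ε) ^ 2 = (Fintype.card (K →+* ℂ) : ℝ) ^ 2 * ε ^ 2 := by
    ring
  rw [this, hε, mul_one]

/-- an element with square `5` has trace `0` -/
theorem low_sqrt5 {s : K} (hs : s ^ 2 = 5) : ∑ φ : K →+* ℂ, φ s = 0 := by
  classical
  have hint : IsIntegral ℤ s := by
    have h5 : IsIntegral ℤ (s ^ 2) := by
      rw [hs]
      have := low_nat (K := K) 5
      simpa using this
    exact IsIntegral.of_pow (by norm_num : 0 < 2) h5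
  obtain ⟨n, hn⟩ := sum_int hint
  have hφ : ∀ φ : K →+* ℂ, φ s = ((Real.sqrt 5 : ℝ) : ℂ) ∨ φ s = -((Real.sqrt 5 : ℝ) : ℂ) := by
    intro φ
    have h1 : (φ s) ^ 2 = 5 := by
      rw [← map_pow, hs]
      exact map_ofNat φ 5
    have h2 : (((Real.sqrt 5 : ℝ) : ℂ)) ^ 2 = 5 := by
      rw [← Complex.ofReal_pow, Real.sq_sqrt (by norm_num)]
      norm_num
    exact sq_eq_sq_iff_eq_or_eq_neg.mp (h1.trans h2.symm)
  have hex : ∀ φ : K →+* ℂ, ∃ k : ℤ, φ s = (k : ℂ) * ((Real.sqrt 5 : ℝ) : ℂ) := by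
    intro φ
    rcases hφ φ with h | h
    · exact ⟨1, by rw [h]; push_cast; ring⟩
    · exact ⟨-1, by rw [h]; push_cast; ring⟩
  choose k hk using hex
  have hsum : (n : ℂ) = ((∑ φ : K →+* ℂ, k φ : ℤ) : ℂ) * ((Real.sqrt 5 : ℝ) : ℂ) := by
    rw [← hn]
    push_cast
    rw [Finset.sum_mul]
    exact Finset.sum_congr rfl fun φ _ => hk φ
  have hreal : (n : ℝ) = ((∑ φ : K →+* ℂ, k φ : ℤ) : ℝ) * Real.sqrt 5 := by
    apply Complex.ofReal_injective
    push_cast
    push_cast at hsum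
    exact hsum
  have hirr : Irrational (Real.sqrt 5) := by
    have := Nat.Prime.irrational_sqrt (p := 5) (by norm_num)
    simpa using this
  by_cases h0 : (∑ φ : K →+* ℂ, k φ : ℤ) = 0
  · rw [hn, hsum, h0]
    simp
  · exfalso
    have h1 : Irrational (((∑ φ : K →+* ℂ, k φ : ℤ) : ℝ) * Real.sqrt 5) := by
      have := hirr.intCast_mul h0
      exact this
    rw [← hreal] at h1
    exact h1.ne_int n rfl

/-- `β^2 - 3 β + 1 = 0` -/
theorem low_phi {a : L} {b : K} (h : Pt K L a b) (hb : b ^ 2 - 3 * b + 1 = 0) :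
    SS K L U2 a = (Fintype.card (K →+* ℂ) : ℝ) / 2 ∧
    SS K L U3 a ^ 2 = (Fintype.card (K →+* ℂ) : ℝ) ^ 2 ∧
    SS K L U4 a = 0 := by
  have hbb : (b - 1) ^ 2 = b := by linear_combination hb
  have ha : a = algebraMap K L (b - 1) ∨ a = -algebraMap K L (b - 1) := by
    have h1 := h.sq
    have h2 : a ^ 2 = (algebraMap K L (b - 1)) ^ 2 := by rw [← map_pow, hbb, h1]
    exact sq_eq_sq_iff_eq_or_eq_neg.mp h2
  set t : (K →+* ℂ) → ℝ := fun φ => (lft K L φ a).re ^ 2 with ht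
  have hφ : ∀ φ : K →+* ℂ, φ b = ((t φ : ℝ) : ℂ) := fun φ => pt_sq h φ
  have hq : ∀ φ : K →+* ℂ, t φ ^ 2 - 3 * t φ + 1 = 0 := by
    intro φ
    have h3 : φ (b ^ 2 - 3 * b + 1) = ((t φ ^ 2 - 3 * t φ + 1 : ℝ) : ℂ) := by
      have h3 : φ (3 : K) = 3 := map_ofNat φ 3
      rw [map_add, map_sub, map_pow, map_mul, map_one, hφ φ, h3]
      push_cast
      ring
    rw [hb, map_zero] at h3
    exact_mod_cast h3.symm
  obtain ⟨ε, hε, hx⟩ : ∃ ε : ℝ, ε ^ 2 = 1 ∧ ∀ φ : K →+* ℂ, (lft K L φ a).re = ε * (t φ - 1) := by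
    have h1 : ∀ φ : K →+* ℂ, (lft K L φ (algebraMap K L (b - 1))).re = t φ - 1 := by
      intro φ
      rw [low_lft, map_sub, map_one, hφ φ]
      simp
    rcases ha with ha | ha
    · exact ⟨1, by norm_num, fun φ => by rw [one_mul, ← h1 φ, ha]⟩
    · refine ⟨-1, by norm_num, fun φ => ?_⟩
      rw [← h1 φ]
      conv_lhs => rw [ha]
      rw [map_neg, Complex.neg_re]
      ring
  have h5 : (2 * b - 3) ^ 2 = (5 : K) := by linear_combination 4 * hb
  have htr := low_sqrt5 h5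
  have hsumt : ∑ φ : K →+* ℂ, t φ = 3 / 2 * (Fintype.card (K →+* ℂ) : ℝ) := by
    have h6 : ∀ φ : K →+* ℂ, φ (2 * b - 3) = ((2 * t φ - 3 : ℝ) : ℂ) := by
      intro φ
      have h3 : φ (3 : K) = 3 := map_ofNat φ 3
      have h2 : φ (2 : K) = 2 := map_ofNat φ 2
      rw [map_sub, map_mul, h2, h3, hφ φ]
      push_cast
      ring
    rw [Finset.sum_congr rfl fun φ _ => h6 φ, ← Complex.ofReal_sum] at htr
    have h7 : ∑ φ : K →+* ℂ, (2 * t φ - 3) = 0 := by exact_mod_cast htr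
    rw [Finset.sum_sub_distrib, ← Finset.mul_sum, Finset.sum_const, nsmul_eq_mul,
      Finset.card_univ] at h7
    linarith
  refine ⟨?_, ?_, ?_⟩
  · have : SS K L U2 a = ∑ φ : K →+* ℂ, (t φ - 1) := rfl
    rw [this, Finset.sum_sub_distrib, hsumt, Finset.sum_const, nsmul_eq_mul, Finset.card_univ]
    ring
  · have h3 := low_const (K := K) U3 a ε (fun φ => by
      unfold U3
      have h8 : (lft K L φ a).re ^ 3 - 2 * (lft K L φ a).re =
          (lft K L φ a).re * ((lft K L φ a).re ^ 2 - 2) := by ring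
      have h9 : (lft K L φ a).re ^ 2 = t φ := rfl
      rw [h8, h9, hx φ]
      linear_combination ε * hq φ)
    rw [h3, mul_pow, hε, mul_one]
  · have h4 := low_const (K := K) U4 a 0 (fun φ => by
      unfold U4
      have h8 : (lft K L φ a).re ^ 4 - 3 * (lft K L φ a).re ^ 2 + 1 =
          ((lft K L φ a).re ^ 2) ^ 2 - 3 * (lft K L φ a).re ^ 2 + 1 := by ring
      rw [h8]
      exact hq φ)
    rw [h4, mul_zero]

end

end Pool.Agent.Maass
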