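import Pool.Agent.Lib_helper56.Maass2.Core

namespace Pool.Agent.Maass

theorem aux_log_quot {t s c : ℝ} (hs : s - c ≠ 0) (h : 0 < (t - c) / (s - c)) :
    Real.log |t - c| ≤ Real.log |s - c| + (t - s) / (s - c) := by
  have ht : t - c ≠ 0 := by
    intro h0
    rw [h0, zero_div] at h
    exact lt_irrefl _ h
  have h1 := Real.log_le_sub_one_of_pos h
  have h2 : Real.log ((t - c) / (s - c)) = Real.log |t - c| - Real.log |s - c| := by
    rw [Real.log_div ht hs, Real.log_abs, Real.log_abs]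
  rw [h2] at h1
  have h3 : (t - c) / (s - c) - 1 = (t - s) / (s - c) := by
    field_simp
    ring
  rw [h3] at h1
  linarith

theorem aux_interval {t s r1 r2 : ℝ} (hr : r1 + r2 = 3) (hr' : r1 * r2 = 1) (ht : 0 < t)
    (hs : 0 < s) (h1 : 0 < (t - 1) / (s - 1)) (h2 : 0 < (t - r1) / (s - r1))
    (h3 : 0 < (t - r2) / (s - r2)) (hs1 : s - 1 ≠ 0) (hs2 : s - r1 ≠ 0) (hs3 : s - r2 ≠ 0) :
    0.58 * Real.log t + 0.9 * Real.log |t - 1| + 0.35 * Real.log |t ^ 2 - 3 * t + 1| ≤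
      0.58 * Real.log s + 0.9 * Real.log |s - 1| + 0.35 * Real.log |s ^ 2 - 3 * s + 1| +
      (t - s) * (0.58 / s + 0.9 / (s - 1) + 0.35 * ((2 * s - 3) / (s ^ 2 - 3 * s + 1))) := by
  have ht2 : t - r1 ≠ 0 := by
    intro h0; rw [h0, zero_div] at h2; exact lt_irrefl _ h2
  have ht3 : t - r2 ≠ 0 := by
    intro h0; rw [h0, zero_div] at h3; exact lt_irrefl _ h3
  have e1 : ∀ x : ℝ, x ^ 2 - 3 * x + 1 = (x - r1) * (x - r2) := by
    intro x
    linear_combination x * hr - hr'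
  have a0 := aux_log_quot (t := t) (s := s) (c := 0) (by simpa using hs.ne')
    (by simpa using div_pos ht hs)
  rw [sub_zero, sub_zero, abs_of_pos ht, abs_of_pos hs] at a0
  have a1 := aux_log_quot hs1 h1
  have a2 := aux_log_quot hs2 h2
  have a3 := aux_log_quot hs3 h3
  have l1 : Real.log |t ^ 2 - 3 * t + 1| = Real.log |t - r1| + Real.log |t - r2| := by
    rw [e1, abs_mul, Real.log_mul (abs_ne_zero.mpr ht2) (abs_ne_zero.mpr ht3)]
  have l2 : Real.log |s ^ 2 - 3 * s + 1| = Real.log |s - r1| + Real.log |s - r2| := by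
    rw [e1, abs_mul, Real.log_mul (abs_ne_zero.mpr hs2) (abs_ne_zero.mpr hs3)]
  have l3 : (2 * s - 3) / (s ^ 2 - 3 * s + 1) = 1 / (s - r1) + 1 / (s - r2) := by
    rw [e1, div_add_div _ _ hs2 hs3]
    congr 1
    linear_combination hr
  rw [l1, l2, l3]
  have e2 : (t - s) * (0.58 / s + 0.9 / (s - 1) + 0.35 * (1 / (s - r1) + 1 / (s - r2))) =
      0.58 * ((t - s) / s) + 0.9 * ((t - s) / (s - 1)) +
        0.35 * ((t - s) / (s - r1) + (t - s) / (s - r2)) := by ring
  rw [e2]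
  linarith

theorem aux_num (a b c : ℝ) (m : ℝ) (ha : 0 < a) (hb : 0 < b) (hc : 0 < c)
    (h : a ^ 58 * b ^ 90 * c ^ 35 ≤ Real.exp m) :
    0.58 * Real.log a + 0.9 * Real.log b + 0.35 * Real.log c ≤ m / 100 := by
  have h1 := Real.log_le_log (by positivity) h
  rw [Real.log_exp, Real.log_mul (by positivity) (by positivity),
    Real.log_mul (by positivity) (by positivity), Real.log_pow, Real.log_pow, Real.log_pow] at h1
  push_cast at h1
  linarith

theorem aux_exp_neg (m : ℕ) : ((2.7182818286 : ℝ) ^ m)⁻¹ ≤ Real.exp (-(m : ℝ)) := by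
  rw [Real.exp_neg]
  have h : Real.exp (m : ℝ) = Real.exp 1 ^ m := by rw [← Real.exp_nat_mul, mul_one]
  rw [h]
  exact inv_anti₀ (by positivity) (pow_le_pow_left₀ (by positivity) Real.exp_one_lt_d9.le m)

theorem aux_exp_pos (m : ℕ) : (2.7182818283 : ℝ) ^ m ≤ Real.exp (m : ℝ) := by
  have h : Real.exp (m : ℝ) = Real.exp 1 ^ m := by rw [← Real.exp_nat_mul, mul_one]
  rw [h]
  exact pow_le_pow_left₀ (by positivity) Real.exp_one_gt_d9.le m

theorem aux_n1 : 0.58 * Real.log (0.155 : ℝ) + 0.9 * Real.log (0.845 : ℝ) +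
    0.35 * Real.log (0.155 ^ 2 - 3 * 0.155 + 1 : ℝ) ≤ -1.43 := by
  have := aux_num 0.155 0.845 (0.155 ^ 2 - 3 * 0.155 + 1) (-(143 : ℕ)) (by norm_num)
    (by norm_num) (by norm_num) (le_trans ?_ (aux_exp_neg 143))
  · refine this.trans (by norm_num)
  · norm_num

theorem aux_n2 : 0.58 * Real.log (0.55 : ℝ) + 0.9 * Real.log (0.45 : ℝ) +
    0.35 * Real.log (-(0.55 ^ 2 - 3 * 0.55 + 1) : ℝ) ≤ -1.13 := by
  have := aux_num 0.55 0.45 (-(0.55 ^ 2 - 3 * 0.55 + 1)) (-(113 : ℕ)) (by norm_num)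
    (by norm_num) (by norm_num) (le_trans ?_ (aux_exp_neg 113))
  · refine this.trans (by norm_num)
  · norm_num

theorem aux_n3 : 0.58 * Real.log (1.92 : ℝ) + 0.9 * Real.log (0.92 : ℝ) +
    0.35 * Real.log (-(1.92 ^ 2 - 3 * 1.92 + 1) : ℝ) ≤ 0.33 := by
  have := aux_num 1.92 0.92 (-(1.92 ^ 2 - 3 * 1.92 + 1)) ((33 : ℕ)) (by norm_num)
    (by norm_num) (by norm_num) (le_trans ?_ (aux_exp_pos 33))
  · refine this.trans (by norm_num)
  · norm_num

theorem aux_n4 : 0.58 * Real.log (3.56 : ℝ) + 0.9 * Real.log (2.56 : ℝ) +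
    0.35 * Real.log ((3.56 ^ 2 - 3 * 3.56 + 1) : ℝ) ≤ 1.97 := by
  have := aux_num 3.56 2.56 ((3.56 ^ 2 - 3 * 3.56 + 1)) ((197 : ℕ)) (by norm_num)
    (by norm_num) (by norm_num) (le_trans ?_ (aux_exp_pos 197))
  · refine this.trans (by norm_num)
  · norm_num

/-- block AUX -/
theorem aux (t : ℝ) (h0 : 0 < t) (h1 : t ≠ 1) (h2 : t ^ 2 - 3 * t + 1 ≠ 0) :
    1.58 + 0.58 * Real.log t + 0.9 * Real.log |t - 1| + 0.35 * Real.log |t ^ 2 - 3 * t + 1| ≤ t := by
  obtain ⟨r1, r2, hr, hr', l1, u1, l2, u2⟩ : ∃ r1 r2 : ℝ, r1 + r2 = 3 ∧ r1 * r2 = 1 ∧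
      0.381 < r1 ∧ r1 < 0.382 ∧ 2.618 < r2 ∧ r2 < 2.619 := by
    have hs : Real.sqrt 5 ^ 2 = 5 := Real.sq_sqrt (by norm_num)
    have hp := Real.sqrt_nonneg 5
    have hl : 2.236 < Real.sqrt 5 := by
      rw [show (2.236 : ℝ) = Real.sqrt (2.236 ^ 2) from (Real.sqrt_sq (by norm_num)).symm]
      exact Real.sqrt_lt_sqrt (by norm_num) (by norm_num)
    have hu : Real.sqrt 5 < 2.2361 := by
      rw [show (2.2361 : ℝ) = Real.sqrt (2.2361 ^ 2) from (Real.sqrt_sq (by norm_num)).symm]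
      exact Real.sqrt_lt_sqrt (by norm_num) (by norm_num)
    refine ⟨(3 - Real.sqrt 5) / 2, (3 + Real.sqrt 5) / 2, by ring, by nlinarith, ?_, ?_, ?_, ?_⟩
      <;> norm_num at hl hu ⊢ <;> linarith
  have hq : t ^ 2 - 3 * t + 1 = (t - r1) * (t - r2) := by linear_combination t * hr - hr'
  have hn1 : t ≠ r1 := fun h => h2 (by rw [hq, h, sub_self, zero_mul])
  have hn2 : t ≠ r2 := fun h => h2 (by rw [hq, h, sub_self, mul_zero])
  rcases lt_or_gt_of_ne hn1 with c1 | c1
  · -- (0, r1)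
    have key := aux_interval (s := 0.155) hr hr' h0 (by norm_num)
      (div_pos_of_neg_of_neg (by linarith) (by norm_num))
      (div_pos_of_neg_of_neg (by linarith) (by linarith))
      (div_pos_of_neg_of_neg (by linarith) (by linarith)) (by norm_num)
      (by intro h; linarith) (by intro h; linarith)
    have n1 := aux_n1
    rw [show |(0.155 : ℝ) - 1| = 0.845 by norm_num [abs_of_neg],
      show |(0.155 : ℝ) ^ 2 - 3 * 0.155 + 1| = 0.155 ^ 2 - 3 * 0.155 + 1 from
        abs_of_pos (by norm_num)] at key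
    norm_num at key n1 ⊢
    nlinarith
  rcases lt_or_gt_of_ne h1 with c2 | c2
  · -- (r1, 1)
    have key := aux_interval (s := 0.55) hr hr' h0 (by norm_num)
      (div_pos_of_neg_of_neg (by linarith) (by norm_num))
      (div_pos (by linarith) (by linarith))
      (div_pos_of_neg_of_neg (by linarith) (by linarith)) (by norm_num)
      (by intro h; linarith) (by intro h; linarith)
    have n2 := aux_n2
    rw [show |(0.55 : ℝ) - 1| = 0.45 by norm_num [abs_of_neg],
      show |(0.55 : ℝ) ^ 2 - 3 * 0.55 + 1| = -(0.55 ^ 2 - 3 * 0.55 + 1) from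
        abs_of_neg (by norm_num)] at key
    norm_num at key n2 ⊢
    nlinarith
  rcases lt_or_gt_of_ne hn2 with c3 | c3
  · -- (1, r2)
    have key := aux_interval (s := 1.92) hr hr' h0 (by norm_num)
      (div_pos (by linarith) (by norm_num))
      (div_pos (by linarith) (by linarith))
      (div_pos_of_neg_of_neg (by linarith) (by linarith)) (by norm_num)
      (by intro h; linarith) (by intro h; linarith)
    have n3 := aux_n3
    rw [show |(1.92 : ℝ) - 1| = 0.92 by norm_num,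
      show |(1.92 : ℝ) ^ 2 - 3 * 1.92 + 1| = -(1.92 ^ 2 - 3 * 1.92 + 1) from
        abs_of_neg (by norm_num)] at key
    norm_num at key n3 ⊢
    nlinarith
  · -- (r2, oo)
    have key := aux_interval (s := 3.56) hr hr' h0 (by norm_num)
      (div_pos (by linarith) (by norm_num))
      (div_pos (by linarith) (by linarith))
      (div_pos (by linarith) (by linarith)) (by norm_num)
      (by intro h; linarith) (by intro h; linarith)
    have n4 := aux_n4
    rw [show |(3.56 : ℝ) - 1| = 2.56 by norm_num,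
      show |(3.56 : ℝ) ^ 2 - 3 * 3.56 + 1| = (3.56 ^ 2 - 3 * 3.56 + 1) from
        abs_of_pos (by norm_num)] at key
    norm_num at key n4 ⊢
    nlinarith

end Pool.Agent.Maass
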