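import Pool.Agent.Lib_helper56.Maass2.Core
import Pool.Agent.Lib_helper56.Maass2.BASIC
import Pool.Agent.Lib_helper56.Maass2.LogIneq

/-! Block SIEG (MP_ef641d_nt). -/

namespace Pool.Agent.Maass

open Filter Topology NumberField

variable {K L : Type} [Field K] [NumberField K] [Field L] [NumberField L] [Algebra K L]

theorem sieg_int {a : L} {b : K} (h : Pt K L a b) : IsIntegral ℤ b := by
  have h1 : IsIntegral ℤ (algebraMap K L b) := by
    rw [h.sq]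
    exact h.int.pow 2
  exact (isIntegral_algebraMap_iff (algebraMap K L).injective).mp h1

theorem sieg {a : L} {b : K} (h : Pt K L a b) (h0 : b ≠ 0) (h1 : b ≠ 1)
    (h2 : b ^ 2 - 3 * b + 1 ≠ 0) :
    1.58 * (Fintype.card (K →+* ℂ) : ℝ) ≤ ∑ φ : K →+* ℂ, (lft K L φ a).re ^ 2 := by
  set t : (K →+* ℂ) → ℝ := fun φ => (lft K L φ a).re ^ 2 with ht
  have hφ : ∀ φ : K →+* ℂ, φ b = ((t φ : ℝ) : ℂ) := fun φ => pt_sq h φ
  have hb := sieg_int h
  have hint3 : IsIntegral ℤ (3 : K) := by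
    have := isIntegral_algebraMap (R := ℤ) (A := K) (x := 3)
    simpa using this
  have hint1 : IsIntegral ℤ (b - 1) := hb.sub isIntegral_one
  have hint2 : IsIntegral ℤ (b ^ 2 - 3 * b + 1) := ((hb.pow 2).sub (hint3.mul hb)).add isIntegral_one
  have hne0 : ∀ φ : K →+* ℂ, t φ ≠ 0 := by
    intro φ h'
    apply h0
    have h3 := hφ φ
    rw [h', Complex.ofReal_zero] at h3
    exact (map_eq_zero φ).mp h3
  have hpos : ∀ φ : K →+* ℂ, 0 < t φ := fun φ => lt_of_le_of_ne (sq_nonneg _) (hne0 φ).symm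
  have hφ1 : ∀ φ : K →+* ℂ, φ (b - 1) = ((t φ - 1 : ℝ) : ℂ) := by
    intro φ
    rw [map_sub, map_one, hφ φ]
    push_cast
    ring
  have hφ2 : ∀ φ : K →+* ℂ, φ (b ^ 2 - 3 * b + 1) = ((t φ ^ 2 - 3 * t φ + 1 : ℝ) : ℂ) := by
    intro φ
    have h3 : φ (3 : K) = 3 := map_ofNat φ 3
    rw [map_add, map_sub, map_pow, map_mul, map_one, hφ φ, h3]
    push_cast
    ring
  have hne1 : ∀ φ : K →+* ℂ, t φ ≠ 1 := by
    intro φ h'
    have h3 := hφ1 φ
    rw [h', sub_self, Complex.ofReal_zero] at h3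
    exact h1 (sub_eq_zero.mp ((map_eq_zero φ).mp h3))
  have hne2 : ∀ φ : K →+* ℂ, t φ ^ 2 - 3 * t φ + 1 ≠ 0 := by
    intro φ h'
    have h3 := hφ2 φ
    rw [h', Complex.ofReal_zero] at h3
    exact h2 ((map_eq_zero φ).mp h3)
  -- the three logarithmic sums are nonnegative
  have key : ∀ (c : K) (f : (K →+* ℂ) → ℝ), IsIntegral ℤ c → c ≠ 0 →
      (∀ φ : K →+* ℂ, φ c = ((f φ : ℝ) : ℂ)) → 0 ≤ ∑ φ : K →+* ℂ, Real.log |f φ| := by
    intro c f hc hc0 hf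
    have h3 := one_le_prod hc hc0
    have h4 : ∏ φ : K →+* ℂ, ‖φ c‖ = ∏ φ : K →+* ℂ, |f φ| := by
      refine Finset.prod_congr rfl fun φ _ => ?_
      rw [hf φ, Complex.norm_real, Real.norm_eq_abs]
    rw [h4] at h3
    have h5 : ∀ φ : K →+* ℂ, f φ ≠ 0 := by
      intro φ h'
      have h6 := hf φ
      rw [h', Complex.ofReal_zero] at h6
      exact hc0 ((map_eq_zero φ).mp h6)
    rw [← Real.log_prod (fun φ _ => abs_ne_zero.mpr (h5 φ))]
    exact Real.log_nonneg h3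
  have k0 := key b t hb h0 hφ
  have k1 := key (b - 1) (fun φ => t φ - 1) hint1 (sub_ne_zero.mpr h1) hφ1
  have k2 := key (b ^ 2 - 3 * b + 1) (fun φ => t φ ^ 2 - 3 * t φ + 1) hint2 h2 hφ2
  have k0' : ∑ φ : K →+* ℂ, Real.log |t φ| = ∑ φ : K →+* ℂ, Real.log (t φ) :=
    Finset.sum_congr rfl fun φ _ => by rw [abs_of_pos (hpos φ)]
  rw [k0'] at k0
  have hsum : ∑ φ : K →+* ℂ, (1.58 + 0.58 * Real.log (t φ) + 0.9 * Real.log |t φ - 1| +
      0.35 * Real.log |t φ ^ 2 - 3 * t φ + 1|) ≤ ∑ φ : K →+* ℂ, t φ :=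
    Finset.sum_le_sum fun φ _ => aux (t φ) (hpos φ) (hne1 φ) (hne2 φ)
  rw [Finset.sum_add_distrib, Finset.sum_add_distrib, Finset.sum_add_distrib, Finset.sum_const,
    ← Finset.mul_sum, ← Finset.mul_sum, ← Finset.mul_sum, nsmul_eq_mul, Finset.card_univ] at hsum
  have : 1.58 * (Fintype.card (K →+* ℂ) : ℝ) ≤ ∑ φ : K →+* ℂ, t φ := by nlinarith
  exact this

end Pool.Agent.Maass
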