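import Pool.Agent.Lib_helper56.Maass2.Core
import Pool.Agent.Lib_helper56.Maass2.SIEG
import Pool.Agent.Lib_helper56.Maass2.LOW
import Pool.Agent.Lib_helper56.Maass2.ISO

namespace Pool.Agent.Maass

open Filter Topology NumberField

variable {K L : Type} [Field K] [NumberField K] [Field L] [NumberField L] [Algebra K L]

theorem low3_int {a : L} {b : K} (h : Pt K L a b) : IsIntegral ℤ b := by
  have h1 : IsIntegral ℤ (algebraMap K L b) := by
    rw [h.sq]
    exact h.int.pow 2
  exact (isIntegral_algebraMap_iff (algebraMap K L).injective).mp h1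

/-- the product over the embeddings of an algebraic integer is a rational integer -/
theorem low3_prod_int {c : K} (hc : IsIntegral ℤ c) : ∃ n : ℤ, ∏ φ : K →+* ℂ, φ c = n := by
  have h1 : IsIntegral ℤ (Algebra.norm ℚ c) := Algebra.isIntegral_norm ℚ hc
  obtain ⟨n, hn⟩ := IsIntegrallyClosed.isIntegral_iff.mp h1
  refine ⟨n, ?_⟩
  have h2 := Algebra.norm_eq_prod_embeddings ℚ ℂ c
  rw [← hn] at h2
  have h3 : ∏ φ : K →+* ℂ, φ c = ∏ σ : K →ₐ[ℚ] ℂ, σ c :=
    Fintype.prod_equiv (RingHom.equivRatAlgHom K ℂ) (fun f => f c) (fun φ => φ c)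
      fun _ => by simp [RingHom.equivRatAlgHom_apply]
  rw [h3, ← h2]
  simp

theorem low3_real_int {z : ℝ} {n : ℤ} (h : (z : ℂ) = (n : ℂ)) : z = n := by
  have : (z : ℂ) = ((n : ℝ) : ℂ) := by rw [h]; norm_cast
  exact_mod_cast this

/-- block LOW3 -/
theorem low3 {a : L} {b : K} (h : Pt K L a b) (hd : Fintype.card (K →+* ℂ) = 3) :
    5.2 ≤ SS K L U2 a ^ 2 + 0.2 * SS K L U3 a ^ 2 + 0.4 * SS K L U4 a ^ 2 := by
  classical
  by_cases b0 : b = 0
  · obtain ⟨h2, h3, h4⟩ := low_zero h b0
    rw [h2, h3, h4, hd]; norm_num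
  by_cases b1 : b = 1
  · obtain ⟨h2, h3, h4⟩ := low_one h b1
    rw [h2, h3, h4, hd]; norm_num
  by_cases bp : b ^ 2 - 3 * b + 1 = 0
  · exfalso
    obtain ⟨n, hn⟩ := even_card (K := K) (s := 2 * b - 3) (by linear_combination 4 * bp)
    omega
  have hs := sieg h b0 b1 bp
  rw [hd] at hs
  -- enumeration of the embeddings
  let e := (Fintype.equivFinOfCardEq hd).symm
  have hsum : ∀ f : (K →+* ℂ) → ℝ, ∑ φ, f φ = f (e 0) + f (e 1) + f (e 2) := by
    intro f
    rw [← Equiv.sum_comp e, Fin.sum_univ_three]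
  have hsumC : ∀ f : (K →+* ℂ) → ℂ, ∑ φ, f φ = f (e 0) + f (e 1) + f (e 2) := by
    intro f
    rw [← Equiv.sum_comp e, Fin.sum_univ_three]
  have hprodC : ∀ f : (K →+* ℂ) → ℂ, ∏ φ, f φ = f (e 0) * f (e 1) * f (e 2) := by
    intro f
    rw [← Equiv.prod_comp e, Fin.prod_univ_three]
  have hall : ∀ φ : K →+* ℂ, φ = e 0 ∨ φ = e 1 ∨ φ = e 2 := by
    intro φ
    obtain ⟨i, rfl⟩ := e.surjective φ
    fin_cases i
    · exact Or.inl rfl
    · exact Or.inr (Or.inl rfl)
    · exact Or.inr (Or.inr rfl)
  have ht : ∀ i, (e i) b = (((lft K L (e i) a).re ^ 2 : ℝ) : ℂ) := fun i => pt_sq h (e i)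
  have hSS : ∀ U : ℝ → ℝ, SS K L U a = U (lft K L (e 0) a).re + U (lft K L (e 1) a).re +
      U (lft K L (e 2) a).re := by
    intro U
    rw [SS, hsum]
  rw [hsum] at hs
  rw [hSS, hSS, hSS]
  set x := (lft K L (e 0) a).re with hx
  set y := (lft K L (e 1) a).re with hy
  set z := (lft K L (e 2) a).re with hz
  have tx : (e 0) b = ((x ^ 2 : ℝ) : ℂ) := ht 0
  have ty : (e 1) b = ((y ^ 2 : ℝ) : ℂ) := ht 1
  have tz : (e 2) b = ((z ^ 2 : ℝ) : ℂ) := ht 2
  have hbi := low3_int h
  have i1 : IsIntegral ℤ (1 : K) := isIntegral_one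
  obtain ⟨e1, he1⟩ := sum_int hbi
  obtain ⟨e3, he3⟩ := low3_prod_int hbi
  obtain ⟨n1, hn1⟩ := low3_prod_int (i1.sub hbi)
  rw [hsumC, tx, ty, tz] at he1
  rw [hprodC, tx, ty, tz] at he3
  rw [hprodC] at hn1
  simp only [map_sub, map_one] at hn1
  rw [tx, ty, tz] at hn1
  have r1 : x ^ 2 + y ^ 2 + z ^ 2 = e1 := low3_real_int (by push_cast at he1 ⊢; exact he1)
  have r3 : x ^ 2 * y ^ 2 * z ^ 2 = e3 := low3_real_int (by push_cast at he3 ⊢; exact he3)
  have rn : (1 - x ^ 2) * (1 - y ^ 2) * (1 - z ^ 2) = n1 :=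
    low3_real_int (by push_cast at hn1 ⊢; exact hn1)
  set e2 : ℤ := n1 - 1 + e1 + e3 with he2
  have r2 : x ^ 2 * y ^ 2 + y ^ 2 * z ^ 2 + z ^ 2 * x ^ 2 = e2 := by
    rw [he2]; push_cast; rw [← r1, ← r3, ← rn]; ring
  have e1_ge : 5 ≤ e1 := by
    by_contra hlt
    push Not at hlt
    have h4 : e1 ≤ 4 := by omega
    have h4' : (e1 : ℝ) ≤ 4 := by exact_mod_cast h4
    rw [← r1] at h4'
    norm_num at hs
    linarith
  -- injectivity consequences
  have inj : ∀ (c : K), (∃ i, (e i) c = 0) → c = 0 := by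
    rintro c ⟨i, hi⟩
    exact (e i).injective (by rw [hi, map_zero])
  have hprod_ne : ∀ q : ℝ, (∃ m : ℕ, q = m ∧ b ≠ (m : K)) → (q - x ^ 2) * (q - y ^ 2) * (q - z ^ 2) ≠ 0 := by
    rintro q ⟨m, rfl, hm⟩ h0
    apply hm
    have h1 : (m : K) - b = 0 := by
      apply inj
      rcases mul_eq_zero.mp h0 with h1 | h1
      · rcases mul_eq_zero.mp h1 with h2 | h2
        · refine ⟨0, ?_⟩
          rw [map_sub, map_natCast, tx]
          rw [show (m : ℂ) = ((m : ℝ) : ℂ) by norm_cast, ← Complex.ofReal_sub, h2]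
          norm_num
        · refine ⟨1, ?_⟩
          rw [map_sub, map_natCast, ty]
          rw [show (m : ℂ) = ((m : ℝ) : ℂ) by norm_cast, ← Complex.ofReal_sub, h2]
          norm_num
      · refine ⟨2, ?_⟩
        rw [map_sub, map_natCast, tz]
        rw [show (m : ℂ) = ((m : ℝ) : ℂ) by norm_cast, ← Complex.ofReal_sub, h1]
        norm_num
    exact (sub_eq_zero.mp h1).symm
  have hP1 := hprod_ne 1 ⟨1, by simp, by simpa using b1⟩
  have hP0 := hprod_ne 0 ⟨0, by simp, by simpa using b0⟩
  have hx0 := sq_nonneg x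
  have hy0 := sq_nonneg y
  have hz0 := sq_nonneg z
  have e3_pos : 1 ≤ e3 := by
    have h1 : (0 : ℝ) < e3 := by
      rw [← r3]
      refine lt_of_le_of_ne (by positivity) ?_
      intro h0
      apply hP0
      linear_combination h0
    have : 0 < e3 := by exact_mod_cast h1
    omega
  rcases lt_or_eq_of_le e1_ge with h6 | h5
  · -- trace at least 6
    have h6' : (6 : ℝ) ≤ e1 := by exact_mod_cast h6
    rw [← r1] at h6'
    simp only [U2]
    nlinarith [sq_nonneg (U3 x + U3 y + U3 z), sq_nonneg (U4 x + U4 y + U4 z)]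
  · -- trace 5
    have r1' : x ^ 2 + y ^ 2 + z ^ 2 = 5 := by rw [r1, ← h5]; norm_num
    have hU2 : U2 x + U2 y + U2 z = 2 := by simp only [U2]; linarith
    have hU4 : U4 x + U4 y + U4 z = 13 - 2 * e2 := by
      simp only [U4]
      have : x ^ 4 + y ^ 4 + z ^ 4 = 25 - 2 * e2 := by
        rw [← r2]
        have : (x ^ 2 + y ^ 2 + z ^ 2) ^ 2 = 25 := by rw [r1']; norm_num
        nlinarith
      linarith
    rw [hU2, hU4]
    by_cases hbig : e2 ≤ 5 ∨ 8 ≤ e2
    · have h9 : (9 : ℝ) ≤ (13 - 2 * (e2 : ℝ)) ^ 2 := by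
        rcases hbig with hb | hb
        · have : (e2 : ℝ) ≤ 5 := by exact_mod_cast hb
          nlinarith
        · have : (8 : ℝ) ≤ e2 := by exact_mod_cast hb
          nlinarith
      nlinarith [sq_nonneg (U3 x + U3 y + U3 z)]
    have hmac : (15 : ℝ) * e3 ≤ (e2 : ℝ) ^ 2 := by
      rw [← r2, ← r3]
      nlinarith [sq_nonneg (x ^ 2 * y ^ 2 - y ^ 2 * z ^ 2), sq_nonneg (y ^ 2 * z ^ 2 - z ^ 2 * x ^ 2),
        sq_nonneg (z ^ 2 * x ^ 2 - x ^ 2 * y ^ 2), mul_nonneg (mul_nonneg hx0 hy0) hz0]
    have hcase : e2 = 6 ∨ e2 = 7 := by omega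
    rcases hcase with h26 | h27
    · -- e2 = 6
      have hle : e3 ≤ 2 := by
        by_contra hgt
        have : (3 : ℝ) ≤ e3 := by exact_mod_cast (by omega : 3 ≤ e3)
        rw [h26] at hmac
        norm_num at hmac
        linarith
      have hcases : e3 = 1 ∨ e3 = 2 := by omega
      rcases hcases with h31 | h32
      · rw [h26] at r2
        rw [h31] at r3
        norm_num at r2 r3
        -- the cubic equation
        have hcub : b ^ 3 - 5 * b ^ 2 + 6 * b - 1 = 0 := by
          apply inj
          refine ⟨0, ?_⟩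
          simp only [map_sub, map_add, map_mul, map_pow, map_one, map_ofNat, tx]
          have hr : (x ^ 2) ^ 3 - 5 * (x ^ 2) ^ 2 + 6 * x ^ 2 - 1 = 0 := by
            linear_combination x ^ 4 * r1' - x ^ 2 * r2 + r3
          have : (((x ^ 2) ^ 3 - 5 * (x ^ 2) ^ 2 + 6 * x ^ 2 - 1 : ℝ) : ℂ) = 0 := by
            rw [hr]; norm_num
          push_cast at this ⊢
          exact this
        have hsq : (a * (algebraMap K L b - 2)) ^ 2 = (algebraMap K L b - 1) ^ 2 := by
          have h1 := congrArg (algebraMap K L) hcub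
          simp only [map_sub, map_add, map_mul, map_pow, map_one, map_ofNat, map_zero] at h1
          rw [mul_pow, ← h.sq]
          linear_combination h1
        have hsgn : ∃ s : ℝ, s ^ 2 = 1 ∧ ∀ i, U3 (lft K L (e i) a).re =
            s * ((lft K L (e i) a).re ^ 2 - 1) := by
          have hlft : ∀ i, (lft K L (e i)) (algebraMap K L b) = (((lft K L (e i) a).re ^ 2 : ℝ) : ℂ) := by
            intro i
            have h1 : (lft K L (e i)) (algebraMap K L b) = ((lft K L (e i)) a) ^ 2 := by
              rw [h.sq, map_pow]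
            have h2 : (lft K L (e i)) a = (((lft K L (e i)) a).re : ℂ) := by
              apply Complex.ext
              · simp
              · simpa using h.real (e i)
            rw [h1, h2]
            push_cast
            rw [Complex.ofReal_re]
          rcases sq_eq_sq_iff_eq_or_eq_neg.mp hsq with h1 | h1
          · refine ⟨1, by norm_num, fun i => ?_⟩
            have h2 := congrArg (lft K L (e i)) h1
            have h3 : (lft K L (e i)) a = (((lft K L (e i)) a).re : ℂ) := by
              apply Complex.ext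
              · simp
              · simpa using h.real (e i)
            rw [map_mul, map_sub, map_sub, hlft, map_one, map_ofNat, h3] at h2
            simp only [U3]
            have h4 : (lft K L (e i) a).re * ((lft K L (e i) a).re ^ 2 - 2) =
                (lft K L (e i) a).re ^ 2 - 1 := by
              exact_mod_cast h2
            linear_combination h4
          · refine ⟨-1, by norm_num, fun i => ?_⟩
            have h2 := congrArg (lft K L (e i)) h1
            have h3 : (lft K L (e i)) a = (((lft K L (e i)) a).re : ℂ) := by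
              apply Complex.ext
              · simp
              · simpa using h.real (e i)
            rw [map_mul, map_neg, map_sub, map_sub, hlft, map_one, map_ofNat, h3] at h2
            simp only [U3]
            have h4 : (lft K L (e i) a).re * ((lft K L (e i) a).re ^ 2 - 2) =
                -((lft K L (e i) a).re ^ 2 - 1) := by
              exact_mod_cast h2
            linear_combination h4
        obtain ⟨s, hs1, hs3⟩ := hsgn
        have u0 : U3 x = s * (x ^ 2 - 1) := hs3 0
        have u1 : U3 y = s * (y ^ 2 - 1) := hs3 1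
        have u2 : U3 z = s * (z ^ 2 - 1) := hs3 2
        have hU3 : (U3 x + U3 y + U3 z) ^ 2 = 4 := by
          have : U3 x + U3 y + U3 z = s * 2 := by
            rw [u0, u1, u2]; linear_combination s * r1'
          rw [this, mul_pow, hs1]; norm_num
        rw [hU3, h26]
        norm_num
      · exfalso
        apply hP1
        rw [h26] at r2
        rw [h32] at r3
        norm_num at r2 r3
        linear_combination -r1' + r2 - r3
    · -- e2 = 7
      exfalso
      have hle : e3 ≤ 3 := by
        by_contra hgt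
        have : (4 : ℝ) ≤ e3 := by exact_mod_cast (by omega : 4 ≤ e3)
        rw [h27] at hmac
        norm_num at hmac
        linarith
      rw [h27] at r2
      have hcases : e3 = 1 ∨ e3 = 2 ∨ e3 = 3 := by omega
      rcases hcases with h31 | h32 | h33
      · rw [h31] at r3
        norm_num at r2 r3
        have hdisc : ((x ^ 2 - y ^ 2) * (y ^ 2 - z ^ 2) * (z ^ 2 - x ^ 2)) ^ 2 = -44 := by
          have key : ∀ A B C : ℝ, ((A - B) * (B - C) * (C - A)) ^ 2 =
              (A + B + C) ^ 2 * (A * B + B * C + C * A) ^ 2 - 4 * (A * B + B * C + C * A) ^ 3 -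
              4 * (A + B + C) ^ 3 * (A * B * C) +
              18 * (A + B + C) * (A * B + B * C + C * A) * (A * B * C) - 27 * (A * B * C) ^ 2 := by
            intro A B C; ring
          rw [key, r1', r2, r3]
          norm_num
        nlinarith [sq_nonneg ((x ^ 2 - y ^ 2) * (y ^ 2 - z ^ 2) * (z ^ 2 - x ^ 2))]
      · rw [h32] at r3
        norm_num at r2 r3
        have h2 : b = 2 := by
          by_contra hb2
          apply hprod_ne 2 ⟨2, by norm_num, by simpa using hb2⟩
          linear_combination -4 * r1' + 2 * r2 - r3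
        have q0 : x ^ 2 = 2 := by
          have := tx
          rw [h2, map_ofNat] at this
          exact_mod_cast this.symm
        have q1 : y ^ 2 = 2 := by
          have := ty
          rw [h2, map_ofNat] at this
          exact_mod_cast this.symm
        have q2 : z ^ 2 = 2 := by
          have := tz
          rw [h2, map_ofNat] at this
          exact_mod_cast this.symm
        rw [q0, q1, q2] at r1'
        norm_num at r1'
      · apply hP1
        rw [h33] at r3
        norm_num at r2 r3
        linear_combination -r1' + r2 - r3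

end Pool.Agent.Maass
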