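import Pool.Agent.Lib_helper56.Maass2.Core
import Pool.Agent.Lib_helper56.Maass2.SIEG
import Pool.Agent.Lib_helper56.Maass2.LOW
import Pool.Agent.Lib_helper56.Maass2.ISO

/-! Blocks LOW5, LOW2 (MP_ef641d_nt). -/

namespace Pool.Agent.Maass

open Filter Topology NumberField

section
variable {K L : Type} [Field K] [NumberField K] [Field L] [NumberField L] [Algebra K L]

theorem low5_int {a : L} {b : K} (h : Pt K L a b) : IsIntegral ℤ b := by
  have h1 : IsIntegral ℤ (algebraMap K L b) := by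
    rw [h.sq]
    exact h.int.pow 2
  exact (isIntegral_algebraMap_iff (algebraMap K L).injective).mp h1

/-- `SS U2 = trace - d` -/
theorem low5_S2 (a : L) : SS K L U2 a =
    (∑ φ : K →+* ℂ, (lft K L φ a).re ^ 2) - (Fintype.card (K →+* ℂ) : ℝ) := by
  unfold SS U2
  rw [Finset.sum_sub_distrib, Finset.sum_const, nsmul_eq_mul, Finset.card_univ, mul_one]

/-- the trace is an integer -/
theorem low5_tr {a : L} {b : K} (h : Pt K L a b) :
    ∃ n : ℤ, ∑ φ : K →+* ℂ, (lft K L φ a).re ^ 2 = n := by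
  obtain ⟨n, hn⟩ := sum_int (low5_int h)
  refine ⟨n, ?_⟩
  rw [Finset.sum_congr rfl fun φ _ => pt_sq h φ, ← Complex.ofReal_sum] at hn
  exact_mod_cast hn

/-- degree at least five (cites SIEG, LOW) -/
theorem low5 {a : L} {b : K} (h : Pt K L a b) (hd : 5 ≤ Fintype.card (K →+* ℂ)) :
    1.682 * (Fintype.card (K →+* ℂ) : ℝ) ≤
      SS K L U2 a ^ 2 + 0.1 * SS K L U3 a ^ 2 + 0.24 * SS K L U4 a ^ 2 := by
  set d : ℝ := (Fintype.card (K →+* ℂ) : ℝ) with hdd
  have hd5 : (5 : ℝ) ≤ d := by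
    rw [hdd]
    exact_mod_cast hd
  by_cases h0 : b = 0
  · obtain ⟨e2, e3, e4⟩ := low_zero h h0
    rw [← hdd] at e2 e4
    rw [e2, e3, e4]
    nlinarith
  by_cases h1 : b = 1
  · obtain ⟨e2, e3, e4⟩ := low_one h h1
    rw [← hdd] at e3 e4
    rw [e2, e3, e4]
    nlinarith
  by_cases h2 : b ^ 2 - 3 * b + 1 = 0
  · obtain ⟨e2, e3, e4⟩ := low_phi h h2
    rw [← hdd] at e2 e3
    rw [e2, e3, e4]
    nlinarith
  have h3 := sieg h h0 h1 h2
  rw [← hdd] at h3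
  have h4 : 0.58 * d ≤ SS K L U2 a := by
    rw [low5_S2, ← hdd]
    linarith
  have h5 : (0.58 * d) ^ 2 ≤ SS K L U2 a ^ 2 := pow_le_pow_left₀ (by positivity) h4 2
  have h6 : 0 ≤ SS K L U3 a ^ 2 := sq_nonneg _
  have h7 : 0 ≤ SS K L U4 a ^ 2 := sq_nonneg _
  nlinarith

theorem low4 {a : L} {b : K} (h : Pt K L a b) (hd : Fintype.card (K →+* ℂ) = 4) :
    8.8 ≤ SS K L U2 a ^ 2 + 0.3 * SS K L U3 a ^ 2 + 0.25 * SS K L U4 a ^ 2 := by
  have hdd : (Fintype.card (K →+* ℂ) : ℝ) = 4 := by rw [hd]; norm_num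
  by_cases h0 : b = 0
  · obtain ⟨e2, e3, e4⟩ := low_zero h h0
    rw [e2, e3, e4, hdd]
    norm_num
  by_cases h1 : b = 1
  · obtain ⟨e2, e3, e4⟩ := low_one h h1
    rw [e2, e3, e4, hdd]
    norm_num
  by_cases h2 : b ^ 2 - 3 * b + 1 = 0
  · obtain ⟨e2, e3, e4⟩ := low_phi h h2
    rw [e2, e3, e4, hdd]
    norm_num
  have h3 := sieg h h0 h1 h2
  rw [hdd] at h3
  obtain ⟨n, hn⟩ := low5_tr h
  rw [hn] at h3
  have h4 : (6 : ℤ) < n := by
    have : (6 : ℝ) < n := by linarith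
    exact_mod_cast this
  have h5 : (7 : ℝ) ≤ n := by exact_mod_cast (by omega : (7 : ℤ) ≤ n)
  have h6 : SS K L U2 a = n - 4 := by rw [low5_S2, hn, hdd]
  rw [h6]
  have h7 : 0 ≤ SS K L U3 a ^ 2 := sq_nonneg _
  have h8 : 0 ≤ SS K L U4 a ^ 2 := sq_nonneg _
  nlinarith

/-- the norm is an integer -/
theorem low2_norm {a : L} {b : K} (h : Pt K L a b) :
    ∃ n : ℤ, ∏ φ : K →+* ℂ, (lft K L φ a).re ^ 2 = n := by
  have h1 : IsIntegral ℤ (Algebra.norm ℚ b) := Algebra.isIntegral_norm ℚ (low5_int h)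
  obtain ⟨n, hn⟩ := IsIntegrallyClosed.isIntegral_iff.1 h1
  refine ⟨n, ?_⟩
  have h4 : ∏ φ : K →+* ℂ, φ b = ((Algebra.norm ℚ b : ℚ) : ℂ) := by
    have := Algebra.norm_eq_prod_embeddings ℚ ℂ b
    rw [eq_ratCast] at this
    rw [this]
    exact Fintype.prod_equiv (RingHom.equivRatAlgHom K ℂ) (fun φ => φ b) (fun φ => φ b) fun φ => rfl
  rw [Finset.prod_congr rfl fun φ _ => pt_sq h φ, ← Complex.ofReal_prod, ← hn] at h4
  simp only [eq_intCast, Rat.cast_intCast] at h4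
  exact_mod_cast h4

theorem low2 {a : L} {b : K} (h : Pt K L a b) (hd : Fintype.card (K →+* ℂ) = 2) :
    5.8 ≤ SS K L U2 a ^ 2 + 1.2 * SS K L U3 a ^ 2 + 0.5 * SS K L U4 a ^ 2 := by
  classical
  have hdd : (Fintype.card (K →+* ℂ) : ℝ) = 2 := by rw [hd]; norm_num
  by_cases h0 : b = 0
  · obtain ⟨e2, e3, e4⟩ := low_zero h h0
    rw [e2, e3, e4, hdd]
    norm_num
  by_cases h1 : b = 1
  · obtain ⟨e2, e3, e4⟩ := low_one h h1
    rw [e2, e3, e4, hdd]
    norm_num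
  by_cases h2 : b ^ 2 - 3 * b + 1 = 0
  · obtain ⟨e2, e3, e4⟩ := low_phi h h2
    rw [e2, e3, e4, hdd]
    norm_num
  have h3 := sieg h h0 h1 h2
  rw [hdd] at h3
  obtain ⟨n, hn⟩ := low5_tr h
  rw [hn] at h3
  have h4 : (3 : ℤ) < n := by
    have : (3 : ℝ) < n := by linarith
    exact_mod_cast this
  have h6 : SS K L U2 a = n - 2 := by rw [low5_S2, hn, hdd]
  have h7 : 0 ≤ SS K L U3 a ^ 2 := sq_nonneg _
  have h8 : 0 ≤ SS K L U4 a ^ 2 := sq_nonneg _
  rcases eq_or_ne n 4 with h9 | h9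
  · -- trace 4
    subst h9
    obtain ⟨N, hN⟩ := low2_norm h
    obtain ⟨φ₁, φ₂, hne, huniv⟩ := Finset.card_eq_two.mp ((Finset.card_univ (α := K →+* ℂ)).trans hd)
    rw [huniv, Finset.sum_pair hne] at hn
    rw [huniv, Finset.prod_pair hne] at hN
    set t₁ : ℝ := (lft K L φ₁ a).re ^ 2 with ht₁
    set t₂ : ℝ := (lft K L φ₂ a).re ^ 2 with ht₂
    have hS4 : SS K L U4 a = 6 - 2 * N := by
      unfold SS U4
      rw [huniv, Finset.sum_pair hne, ← hN]
      have e1 : (lft K L φ₁ a).re ^ 4 = t₁ ^ 2 := by rw [ht₁]; ring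
      have e2 : (lft K L φ₂ a).re ^ 4 = t₂ ^ 2 := by rw [ht₂]; ring
      rw [e1, e2, ← ht₁, ← ht₂]
      push_cast at hn
      have e3 : t₂ = 4 - t₁ := by linarith
      rw [e3]
      ring
    have hN3 : N ≠ 3 := by
      intro hN3
      rw [hN3] at hN
      push_cast at hn hN
      have e3 : (t₁ - 1) * (t₂ - 1) = 0 := by linear_combination hN - hn
      have key : ∀ φ : K →+* ℂ, (lft K L φ a).re ^ 2 = 1 → b = 1 := by
        intro φ hφ
        have e4 := pt_sq h φ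
        rw [hφ, Complex.ofReal_one] at e4
        exact φ.injective (e4.trans (map_one φ).symm)
      rcases mul_eq_zero.mp e3 with e | e
      · exact h1 (key φ₁ (by linarith))
      · exact h1 (key φ₂ (by linarith))
    have h10 : (2 : ℝ) ^ 2 ≤ SS K L U4 a ^ 2 := by
      rw [hS4]
      have h11 : (1 : ℤ) ≤ (N - 3) ^ 2 := by
        have : 0 < (N - 3) ^ 2 := by
          have : N - 3 ≠ 0 := sub_ne_zero.mpr hN3
          positivity
        omega
      have h12 : (1 : ℝ) ≤ ((N : ℝ) - 3) ^ 2 := by exact_mod_cast h11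
      nlinarith
    rw [h6]
    push_cast
    nlinarith
  · have h5 : (5 : ℝ) ≤ n := by exact_mod_cast (by omega : (5 : ℤ) ≤ n)
    rw [h6]
    nlinarith

end

end Pool.Agent.Maass
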