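import Pool.Agent.Lib_helper56.Maass2.UP
import Pool.Agent.Lib_helper56.Maass2.ISO
import Pool.Agent.Lib_helper56.Maass2.LOW5
import Pool.Agent.Lib_helper56.Maass2.LOW3

namespace Pool.Agent.Maass

open Filter Topology NumberField

section
variable {K L : Type} [Field K] [NumberField K] [Field L] [NumberField L] [Algebra K L]

/-- two isomorphic distinct embeddings: `√5 ∈ K` and they differ on it -/
theorem fin_iso {P : Set ℕ} {α : P → L} {β : P → K} (h : MaassCore L P α)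
    (hβ : ∀ p, algebraMap K L (β p) = α p ^ 2)
    (hsep : ∀ φ φ' : K →+* ℂ, φ ≠ φ' → ∃ p, φ (β p) ≠ φ' (β p)) {φ φ' : K →+* ℂ} (ne : φ ≠ φ')
    (hi : Iso K L α φ φ') :
    (∃ s : K, s ^ 2 = 5) ∧ ∀ s : K, s ^ 2 = 5 → φ s = - φ' s := by
  have hi' : ∀ p, U4 (lft K L φ (α p)).re = U4 (lft K L φ' (α p)).re := by
    obtain e | e := hi
    · exact absurd e ne
    · exact e
  obtain ⟨p, hp⟩ := hsep φ φ' ne
  have pt : Pt K L (α p) (β p) := ⟨h.integral p, hβ p, fun φ => h.real _ p⟩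
  obtain ⟨h1, h2⟩ := iso_one pt (hi' p) hp
  have h3 : (2 * β p - 3) ^ 2 = 5 := by linear_combination 4 * h1
  have h4 : φ (2 * β p - 3) = - φ' (2 * β p - 3) := by
    simp only [map_sub, map_mul, map_ofNat]
    linear_combination 2 * h2
  refine ⟨⟨_, h3⟩, fun s hs => ?_⟩
  have h5 : s = 2 * β p - 3 ∨ s = -(2 * β p - 3) := sq_eq_sq_iff_eq_or_eq_neg.1 (by rw [hs, h3])
  obtain h5 | h5 := h5
  · rw [h5]; exact h4
  · rw [h5, map_neg, map_neg, h4]

theorem iso_symm {P : Set ℕ} {α : P → L} {φ φ' : K →+* ℂ} (hi : Iso K L α φ φ') :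
    Iso K L α φ' φ := by
  obtain e | e := hi
  · exact Or.inl e.symm
  · exact Or.inr fun p => (e p).symm

theorem iso_trans {P : Set ℕ} {α : P → L} {φ φ' φ'' : K →+* ℂ} (hi : Iso K L α φ φ')
    (hi' : Iso K L α φ' φ'') : Iso K L α φ φ'' := by
  obtain e | e := hi
  · rw [e]; exact hi'
  · obtain e' | e' := hi'
    · rw [← e']; exact Or.inr e
    · exact Or.inr fun p => (e p).trans (e' p)

open Classical in
theorem fin_two {P : Set ℕ} {α : P → L} {β : P → K} (h : MaassCore L P α)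
    (hβ : ∀ p, algebraMap K L (β p) = α p ^ 2)
    (hsep : ∀ φ φ' : K →+* ℂ, φ ≠ φ' → ∃ p, φ (β p) ≠ φ' (β p)) (φ : K →+* ℂ) :
    (Finset.univ.filter fun φ' => Iso K L α φ φ').card ≤ 2 := by
  by_contra hcon
  push Not at hcon
  obtain ⟨x, y, z, hx, hy, hz, hxy, hxz, hyz⟩ := Finset.two_lt_card_iff.1 hcon
  simp only [Finset.mem_filter, Finset.mem_univ, true_and] at hx hy hz
  have ixy := iso_trans (iso_symm hx) hy
  have ixz := iso_trans (iso_symm hx) hz
  have iyz := iso_trans (iso_symm hy) hz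
  obtain ⟨⟨s, hs⟩, h1⟩ := fin_iso h hβ hsep hxy ixy
  have h2 := (fin_iso h hβ hsep hxz ixz).2 s hs
  have h3 := (fin_iso h hβ hsep hyz iyz).2 s hs
  have h4 := h1 s hs
  have h5 : z s = 0 := by
    have : z s = y s := by rw [h4] at h2; exact (neg_injective h2).symm
    rw [this] at h3 ⊢
    linear_combination h3 / 2
  have h6 : z s ^ 2 = 5 := by rw [← map_pow, hs, map_ofNat]
  rw [h5] at h6
  norm_num at h6

open Classical in
theorem fin_one {P : Set ℕ} {α : P → L} {β : P → K} 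
    (hno : ∀ φ φ' : K →+* ℂ, φ ≠ φ' → ¬ Iso K L α φ φ') (φ : K →+* ℂ) :
    (Finset.univ.filter fun φ' => Iso K L α φ φ').card ≤ 1 := by
  rw [Finset.card_le_one]
  intro x hx y hy
  simp only [Finset.mem_filter, Finset.mem_univ, true_and] at hx hy
  by_contra hxy
  exact hno x y hxy (iso_trans (iso_symm hx) hy)

/-- the degree of `K` is two and there are two isomorphic embeddings, or it is one -/
theorem fin_deg {P : Set ℕ} {α : P → L} {β : P → K} (h : MaassCore L P α)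
    (hβ : ∀ p, algebraMap K L (β p) = α p ^ 2)
    (hsep : ∀ φ φ' : K →+* ℂ, φ ≠ φ' → ∃ p, φ (β p) ≠ φ' (β p)) :
    Fintype.card (K →+* ℂ) = 1 ∨ (Fintype.card (K →+* ℂ) = 2 ∧
      ∃ φ φ' : K →+* ℂ, φ ≠ φ' ∧ Iso K L α φ φ') := by
  have pt : ∀ p, Pt K L (α p) (β p) := fun p => ⟨h.integral p, hβ p, fun φ => h.real _ p⟩
  have hpos : 0 < Fintype.card (K →+* ℂ) := Fintype.card_pos
  obtain hd | hd | hd | hd | hd : Fintype.card (K →+* ℂ) = 1 ∨ Fintype.card (K →+* ℂ) = 2 ∨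
      Fintype.card (K →+* ℂ) = 3 ∨ Fintype.card (K →+* ℂ) = 4 ∨
      5 ≤ Fintype.card (K →+* ℂ) := by omega
  · exact Or.inl hd
  · refine Or.inr ⟨hd, ?_⟩
    by_contra hno
    push Not at hno
    have := up h hβ hsep 1.2 0.5 5.8 (by norm_num) (by norm_num) 1
      (fun φ => fin_one (β := β) hno φ) (fun p => low2 (pt p) hd)
    rw [hd] at this
    norm_num at this
  · exfalso
    have hno : ∀ φ φ' : K →+* ℂ, φ ≠ φ' → ¬ Iso K L α φ φ' := by
      intro φ φ' ne hi
      obtain ⟨⟨s, hs⟩, -⟩ := fin_iso h hβ hsep ne hi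
      obtain ⟨n, hn⟩ := even_card hs
      omega
    have := up h hβ hsep 0.2 0.4 5.2 (by norm_num) (by norm_num) 1
      (fun φ => fin_one (β := β) hno φ) (fun p => low3 (pt p) hd)
    rw [hd] at this
    norm_num at this
  · exfalso
    have := up h hβ hsep 0.3 0.25 8.8 (by norm_num) (by norm_num) 2
      (fun φ => fin_two h hβ hsep φ) (fun p => low4 (pt p) hd)
    rw [hd] at this
    norm_num at this
  · exfalso
    have := up h hβ hsep 0.1 0.24 _ (by norm_num) (by norm_num) 2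
      (fun φ => fin_two h hβ hsep φ) (fun p => low5 (pt p) hd)
    have h5 : (0 : ℝ) < (Fintype.card (K →+* ℂ) : ℝ) := by exact_mod_cast hpos
    norm_num at this
    linarith

end

end Pool.Agent.Maass
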