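import Pool.Agent.Lib_helper56.Maass2.Core
import Pool.Agent.Lib_helper56.Maass2.MEAN

namespace Pool.Agent.Maass

open Filter Topology NumberField

theorem one_nonempty {P : Set ℕ} {g : P → ℝ} {a : ℝ} (H : HasMean P g a) (ha : a ≠ 0) :
    P.Nonempty := by
  by_contra hP
  rw [Set.not_nonempty_iff_eq_empty] at hP
  subst hP
  have H' := mean_const_mul (P := (∅ : Set ℕ)) 0 H
  rw [zero_mul] at H'
  apply ha
  refine mean_unique H ?_
  convert H' using 2 with p
  exact p.2.elim

/-- values of `q` at squares of integers -/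
theorem one_q_nonneg (m : ℤ) : (0 : ℝ) ≤ (m : ℝ) ^ 2 * ((m : ℝ) ^ 2 - 1) * ((m : ℝ) ^ 2 - 4) := by
  have : (0 : ℤ) ≤ m ^ 2 * (m ^ 2 - 1) * (m ^ 2 - 4) := by
    rcases lt_trichotomy (m ^ 2) 1 with h | h | h
    · have h0 := sq_nonneg m
      have h1 : m ^ 2 = 0 := by omega
      have : m = 0 := by simpa using h1
      subst this; norm_num
    · rw [h]; norm_num
    · rcases le_or_gt 4 (m ^ 2) with h4 | h4
      · have := mul_nonneg (mul_nonneg (sq_nonneg m) (by linarith : (0 : ℤ) ≤ m ^ 2 - 1))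
          (by linarith : (0 : ℤ) ≤ m ^ 2 - 4)
        exact this
      · exfalso
        have a1 : m < 2 := by nlinarith
        have a2 : -2 < m := by nlinarith
        have : m = -1 ∨ m = 0 ∨ m = 1 := by omega
        rcases this with rfl | rfl | rfl <;> norm_num at h
  exact_mod_cast this

section
variable {L : Type} [Field L] [NumberField L]

/-- an algebraic integer all of whose conjugates are equal to the same real number is a rational integer -/
theorem one_all_eq {a : L} (ha : IsIntegral ℤ a) (hr : ∀ τ : L →+* ℂ, (τ a).im = 0) (x : ℝ)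
    (hx : ∀ τ : L →+* ℂ, (τ a).re = x) : ∃ m : ℤ, x = m := by
  have hc : ∀ τ : L →+* ℂ, τ a = (x : ℂ) := fun τ => Complex.ext (by simp [hx τ]) (by simp [hr τ])
  -- the minimal polynomial
  obtain ⟨τ⟩ : Nonempty (L →+* ℂ) := inferInstance
  have hroots := NumberField.Embeddings.range_eval_eq_rootSet_minpoly L ℂ a
  have hint : IsIntegral ℚ a := ha.tower_top
  have hsub : (minpoly ℚ a).rootSet ℂ = {(x : ℂ)} := by
    rw [← hroots]
    ext z
    simp only [Set.mem_range, Set.mem_singleton_iff]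
    constructor
    · rintro ⟨φ, rfl⟩; exact hc φ
    · rintro rfl; exact ⟨τ, hc τ⟩
  have hcard : Fintype.card ((minpoly ℚ a).rootSet ℂ) = (minpoly ℚ a).natDegree :=
    Polynomial.card_rootSet_eq_natDegree (minpoly.irreducible hint).separable
      (IsAlgClosed.splits _)
  have hdeg : (minpoly ℚ a).natDegree = 1 := by
    rw [← hcard]
    have : Fintype.card ((minpoly ℚ a).rootSet ℂ) = Fintype.card ({(x : ℂ)} : Set ℂ) := by
      exact Fintype.card_congr (Equiv.setCongr hsub)
    rw [this]; simp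
  have hmem : a ∈ (algebraMap ℚ L).range := by
    rw [← minpoly.natDegree_eq_one_iff]
    exact hdeg
  obtain ⟨r, hr'⟩ := hmem
  have hrint : IsIntegral ℤ r := by
    rw [← hr'] at ha
    exact (isIntegral_algebraMap_iff (algebraMap ℚ L).injective).1 ha
  obtain ⟨m, hm⟩ := IsIntegrallyClosed.isIntegral_iff.1 hrint
  refine ⟨m, ?_⟩
  have h1 : τ a = (m : ℂ) := by
    rw [← hr', ← hm]; simp
  have := hc τ
  rw [h1] at this
  exact_mod_cast this.symm

theorem one_case {P : Set ℕ} {α : P → L}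
    (h : MaassCore L P α) (hq : ∀ p, ∃ n : ℚ, α p ^ 2 = (n : L)) : False := by
  classical
  obtain ⟨τ0⟩ : Nonempty (L →+* ℂ) := inferInstance
  have hne : P.Nonempty := one_nonempty (h.self τ0).2.2.1 one_ne_zero
  have m1 : HasMean P (fun _ => 1) 1 := mean_one hne (fun p hp => h.prime p hp)
  -- squares do not depend on the embedding
  have hU : ∀ (τ : L →+* ℂ) (p : P), ev α τ p ^ 2 = ev α τ0 p ^ 2 := by
    intro τ p
    obtain ⟨n, hn⟩ := hq p
    have key : ∀ σ : L →+* ℂ, ev α σ p ^ 2 = n := by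
      intro σ
      have h1 : σ (α p) = ((ev α σ p : ℝ) : ℂ) :=
        Complex.ext (by simp [ev]) (by simp [h.real σ p])
      have h2 : σ (α p) ^ 2 = (n : ℂ) := by rw [← map_pow, hn, map_ratCast]
      rw [h1] at h2
      exact_mod_cast h2
    rw [key, key]
  have hE : ∀ (τ : L →+* ℂ) (p : P), ev α τ p = ev α τ0 p := by
    intro τ
    rcases h.pair τ τ0 with h1 | ⟨h1, -⟩
    · exact h1
    · exfalso
      have h2 := (h.self τ0).2.2.1
      have h3 : HasMean P (fun p => U2 (ev α τ0 p) ^ 2) 0 := by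
        convert h1 using 2 with p
        rw [U2, U2, hU τ p]; ring
      exact one_ne_zero (mean_unique h2 h3)
  set Q : P → ℝ := fun p => U2 (ev α τ0 p) * U4 (ev α τ0 p) - U4 (ev α τ0 p) -
    3 * U2 (ev α τ0 p) - 1 with hQ
  have hQ2 : ∀ p, Q p = ev α τ0 p ^ 2 * (ev α τ0 p ^ 2 - 1) * (ev α τ0 p ^ 2 - 4) := by
    intro p; simp only [hQ, U2, U4]; ring
  have hQ0 : ∀ p, 0 ≤ Q p := by
    intro p
    obtain ⟨m, hm⟩ := one_all_eq (h.integral p) (fun τ => h.real τ p) (ev α τ0 p)
      (fun τ => hE τ p)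
    rw [hQ2, hm]
    exact one_q_nonneg m
  have hQm : HasMean P Q (-1) := by
    obtain ⟨u2, u4, -, -, -, u24⟩ := h.self τ0
    convert mean_add u24 (mean_add (mean_const_mul (-1) u4) (mean_add (mean_const_mul (-3) u2)
      (mean_const_mul (-1) m1))) using 1
    · funext p; simp only [hQ]; ring
    · norm_num
  have := mean_nonneg hQm hQ0
  norm_num at this

end

end Pool.Agent.Maass
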