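import Pool.Agent.Lib_helper56.Maass2.FIN0
import Pool.Agent.Lib_helper56.Maass2.ONE
import Pool.Agent.Lib_helper56.Maass2.DENS

namespace Pool.Agent.Maass

open Filter Topology NumberField

section
variable {K : Type} [Field K] [NumberField K]

/-- a totally nonnegative algebraic integer with two different conjugates of sum `3` -/
theorem iso_core {b : K} (hbi : IsIntegral ℤ b)
    (hpos : ∀ ψ : K →+* ℂ, ∃ s : ℝ, 0 ≤ s ∧ ψ b = (s : ℂ)) {φ φ' : K →+* ℂ}
    (hs : φ b + φ' b = 3) (ne : φ b ≠ φ' b) : b ^ 2 - 3 * b + 1 = 0 := by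
  have hrange : ∀ ψ : K →+* ℂ, ∃ s : ℝ, 0 ≤ s ∧ s ≤ 3 ∧ ψ b = (s : ℂ) := by
    intro ψ
    obtain ⟨χ, hχ⟩ := iso_refl hs ψ
    obtain ⟨s, s0, hs1⟩ := hpos ψ
    obtain ⟨r, r0, hr1⟩ := hpos χ
    refine ⟨s, s0, ?_, hs1⟩
    rw [hs1, hr1] at hχ
    have h3 : r = 3 - s := by exact_mod_cast hχ
    linarith
  set c := b * (3 - b) with hc
  have i3 : IsIntegral ℤ (3 : K) := by
    have := isIntegral_algebraMap (R := ℤ) (A := K) (x := 3)
    simpa using this
  have hci : IsIntegral ℤ c := hbi.mul (i3.sub hbi)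
  have hdi : IsIntegral ℤ (c * (c - 1) * (c - 2)) := by
    have i1 : IsIntegral ℤ (1 : K) := isIntegral_one
    have i2 : IsIntegral ℤ (2 : K) := by
      have := isIntegral_algebraMap (R := ℤ) (A := K) (x := 2)
      simpa using this
    exact (hci.mul (hci.sub i1)).mul (hci.sub i2)
  have hd0 : c * (c - 1) * (c - 2) = 0 := by
    by_contra hne
    have h1 := one_le_prod hdi hne
    have h2 : ∏ ψ : K →+* ℂ, ‖ψ (c * (c - 1) * (c - 2))‖ < ∏ _ψ : K →+* ℂ, (1 : ℝ) := by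
      refine Finset.prod_lt_prod_of_nonempty ?_ ?_ ⟨φ, Finset.mem_univ _⟩
      · intro ψ _
        exact norm_pos_iff.mpr fun h0 => hne (ψ.injective (by rw [h0, map_zero]))
      · intro ψ _
        obtain ⟨s, s0, s3, hs'⟩ := hrange ψ
        have h3 : ψ (c * (c - 1) * (c - 2)) =
            ((s * (3 - s) * (s * (3 - s) - 1) * (s * (3 - s) - 2) : ℝ) : ℂ) := by
          simp only [hc, map_mul, map_sub, map_one, map_ofNat, hs']
          push_cast
          ring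
        rw [h3, Complex.norm_real, Real.norm_eq_abs]
        exact iso_cubic (mul_nonneg s0 (by linarith)) (by nlinarith [sq_nonneg (s - 3 / 2)])
    rw [Finset.prod_const_one] at h2
    linarith
  have hn3 : ∀ q : K, (∃ m : ℕ, q = m) → b ≠ q := by
    rintro q ⟨m, rfl⟩ hb
    apply ne
    rw [hb, map_natCast, map_natCast]
  rcases mul_eq_zero.mp hd0 with h1 | h1
  · rcases mul_eq_zero.mp h1 with h2 | h2
    · rcases mul_eq_zero.mp h2 with h3 | h3
      · exact absurd h3 (hn3 0 ⟨0, by simp⟩)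
      · exact absurd (by linear_combination -h3) (hn3 3 ⟨3, by norm_num⟩)
    · linear_combination -h2
  · have h2 : (b - 1) * (b - 2) = 0 := by linear_combination -h1
    rcases mul_eq_zero.mp h2 with h3 | h3
    · exact absurd (sub_eq_zero.mp h3) (hn3 1 ⟨1, by norm_num⟩)
    · exact absurd (sub_eq_zero.mp h3) (hn3 2 ⟨2, by norm_num⟩)

/-- if all embeddings of `K` agree at the algebraic integer `b` with a nonnegative value, that value
is a natural number -/
theorem fin_nat {b : K} (hb : IsIntegral ℤ b) (hd : Fintype.card (K →+* ℂ) = 2) (x : ℝ)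
    (hx : 0 ≤ x) (hall : ∀ φ : K →+* ℂ, φ b = x) : ∃ n : ℕ, x = n := by
  obtain ⟨m, hm⟩ := sum_int hb
  have h1 : (2 : ℝ) * x = m := by
    have : ∑ φ : K →+* ℂ, φ b = 2 * (x : ℂ) := by
      rw [Finset.sum_congr rfl fun φ _ => hall φ, Finset.sum_const, Finset.card_univ, hd]
      simp
    rw [this] at hm
    exact_mod_cast hm
  -- `x` is an algebraic integer and rational
  obtain ⟨φ⟩ : Nonempty (K →+* ℂ) := inferInstance
  have h2 : IsIntegral ℤ (((m : ℚ) / 2 : ℚ) : ℂ) := by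
    have : (((m : ℚ) / 2 : ℚ) : ℂ) = φ b := by
      rw [hall φ]
      have : x = (m : ℝ) / 2 := by linarith
      rw [this]
      push_cast
      ring
    rw [this]
    exact hb.map (φ.toIntAlgHom)
  have h3 : IsIntegral ℤ ((m : ℚ) / 2) := by
    have h4 : IsIntegral ℤ ((algebraMap ℚ ℂ) ((m : ℚ) / 2)) := by simpa using h2
    exact (isIntegral_algebraMap_iff (algebraMap ℚ ℂ).injective).1 h4
  obtain ⟨k, hk⟩ := IsIntegrallyClosed.isIntegral_iff.1 h3
  have h5 : x = k := by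
    have h6 : (m : ℝ) / 2 = k := by
      have : (k : ℚ) = (m : ℚ) / 2 := by simpa using hk
      exact_mod_cast this.symm
    linarith
  have h7 : 0 ≤ k := by
    have : (0 : ℝ) ≤ k := h5 ▸ hx
    exact_mod_cast this
  refine ⟨k.toNat, ?_⟩
  rw [h5]
  have : ((k.toNat : ℤ) : ℝ) = (k : ℝ) := by rw [Int.toNat_of_nonneg h7]
  exact_mod_cast this.symm

end

/-! ### restriction to a progression -/

section
variable {L : Type} [Field L] [NumberField L] {P : Set ℕ} {M : ℕ} {om : DirichletCharacter L M}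
  {lam : P → L}

theorem dc_one {R : Type} [CommMonoidWithZero R] {N N' p : ℕ} (χ : DirichletCharacter R N)
    (h : N ∣ N') (hp : p ≡ 1 [MOD N']) : χ (p : ZMod N) = 1 := by
  have : (p : ZMod N) = 1 := by
    have := (ZMod.natCast_eq_natCast_iff p 1 N).2 (hp.of_dvd h)
    simpa using this
  rw [this, map_one]

/-- the restricted family -/
def rs (lam : P → L) (N : ℕ) (p : PN P N) : L := lam ⟨p.1, p.2.1⟩

theorem rs_real (h : GL2System L P M om lam) {N : ℕ} (hM : M ∣ N) (τ : L →+* ℂ) (p : PN P N) :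
    τ (rs lam N p) = ((ev (rs lam N) τ p : ℝ) : ℂ) ∧
    U2 (av lam τ ⟨p.1, p.2.1⟩) = U2 (ev (rs lam N) τ p) ∧
    U4 (av lam τ ⟨p.1, p.2.1⟩) = U4 (ev (rs lam N) τ p) ∧
    V3 om lam τ ⟨p.1, p.2.1⟩ = ((U3 (ev (rs lam N) τ p) : ℝ) : ℂ) := by
  have hom : om ((p.1 : ℕ) : ZMod M) = 1 := dc_one om hM p.2.2
  have hu := h.unitary τ ⟨p.1, p.2.1⟩
  simp only [hom, map_one, one_mul] at hu
  have h1 : τ (rs lam N p) = ((ev (rs lam N) τ p : ℝ) : ℂ) := (Complex.conj_eq_iff_re.1 hu.symm).symm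
  have h2 : av lam τ ⟨p.1, p.2.1⟩ ^ 2 = ev (rs lam N) τ p ^ 2 := by
    have : av lam τ ⟨p.1, p.2.1⟩ = |ev (rs lam N) τ p| := by
      have e : av lam τ ⟨p.1, p.2.1⟩ = ‖τ (rs lam N p)‖ := rfl
      rw [e, h1, Complex.norm_real, Real.norm_eq_abs]
    rw [this, sq_abs]
  refine ⟨h1, by simp only [U2, h2], ?_, ?_⟩
  · have : ∀ x : ℝ, U4 x = (x ^ 2) ^ 2 - 3 * x ^ 2 + 1 := fun x => by unfold U4; ring
    rw [this, this, h2]
  · unfold V3
    simp only [hom, map_one, mul_one]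
    have e : τ (lam ⟨p.1, p.2.1⟩) = ((ev (rs lam N) τ p : ℝ) : ℂ) := h1
    rw [e]
    unfold U3
    push_cast
    ring

theorem core_self (h : GL2System L P M om lam) {N : ℕ} (hN : 0 < N) (hM : M ∣ N) (τ : L →+* ℂ) :
    HasMean (PN P N) (fun p => U2 (ev (rs lam N) τ p)) 0 ∧
    HasMean (PN P N) (fun p => U4 (ev (rs lam N) τ p)) 0 ∧
    HasMean (PN P N) (fun p => U2 (ev (rs lam N) τ p) ^ 2) 1 ∧
    HasMean (PN P N) (fun p => U3 (ev (rs lam N) τ p) ^ 2) 1 ∧
    HasMean (PN P N) (fun p => U4 (ev (rs lam N) τ p) ^ 2) 1 ∧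
    HasMean (PN P N) (fun p => U2 (ev (rs lam N) τ p) * U4 (ev (rs lam N) τ p)) 0 := by
  obtain ⟨h1, h2, h3, h4, h5, h6⟩ := h.self τ N hN
  simp only [HasMeanN] at h1 h2 h3 h4 h5 h6
  refine ⟨?_, ?_, ?_, ?_, ?_, ?_⟩
  · convert h1 using 2 with p
    exact (rs_real h hM τ p).2.1.symm
  · convert h2 using 2 with p
    exact (rs_real h hM τ p).2.2.1.symm
  · convert h3 using 2 with p
    rw [(rs_real h hM τ p).2.1]
  · convert h4 using 2 with p
    rw [(rs_real h hM τ p).2.2.2, Complex.norm_real, Real.norm_eq_abs, sq_abs]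
  · convert h5 using 2 with p
    rw [(rs_real h hM τ p).2.2.1]
  · convert h6 using 2 with p
    rw [(rs_real h hM τ p).2.1, (rs_real h hM τ p).2.2.1]

theorem core_pair (h : GL2System L P M om lam) (τ τ' : L →+* ℂ) :
    ∃ N1 : ℕ, 0 < N1 ∧ ∀ N : ℕ, 0 < N → M ∣ N → N1 ∣ N →
    ((∀ p : PN P N, ev (rs lam N) τ p = ev (rs lam N) τ' p) ∨
    (HasMean (PN P N) (fun p => U2 (ev (rs lam N) τ p) * U2 (ev (rs lam N) τ' p)) 0 ∧
     (HasMean (PN P N) (fun p => U3 (ev (rs lam N) τ p) * U3 (ev (rs lam N) τ' p)) 0 ∨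
       ∀ p, U3 (ev (rs lam N) τ p) = U3 (ev (rs lam N) τ' p) ∧
         U4 (ev (rs lam N) τ p) = U4 (ev (rs lam N) τ' p)) ∧
     (HasMean (PN P N) (fun p => U4 (ev (rs lam N) τ p) * U4 (ev (rs lam N) τ' p)) 0 ∨
       ∀ p, U4 (ev (rs lam N) τ p) = U4 (ev (rs lam N) τ' p)))) := by
  obtain ⟨N1, χ, hN1, H⟩ | ⟨h2, h3, h4⟩ := h.pair τ τ'
  · refine ⟨N1, hN1, fun N hN hM hd => Or.inl fun p => ?_⟩
    have h1 := (H ⟨p.1, p.2.1⟩).1
    rw [dc_one χ hd p.2.2, one_mul] at h1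
    unfold ev rs
    rw [h1]
  · have key4 : ∀ N : ℕ, 0 < N → M ∣ N →
        (HasMean (PN P N) (fun p => U4 (ev (rs lam N) τ p) * U4 (ev (rs lam N) τ' p)) 0 ∨
          ∀ p, U4 (ev (rs lam N) τ p) = U4 (ev (rs lam N) τ' p)) := by
      intro N hN hM
      obtain h4 | h4 := h4
      · refine Or.inr fun p => ?_
        rw [← (rs_real h hM τ p).2.2.1, ← (rs_real h hM τ' p).2.2.1]
        exact h4 _
      · refine Or.inl ?_
        have h4N := h4 N hN
        simp only [HasMeanN] at h4N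
        convert h4N using 2 with p
        rw [(rs_real h hM τ p).2.2.1, (rs_real h hM τ' p).2.2.1]
    have key2 : ∀ N : ℕ, 0 < N → M ∣ N →
        HasMean (PN P N) (fun p => U2 (ev (rs lam N) τ p) * U2 (ev (rs lam N) τ' p)) 0 := by
      intro N hN hM
      have h2N := h2 N hN
      simp only [HasMeanN] at h2N
      convert h2N using 2 with p
      rw [(rs_real h hM τ p).2.1, (rs_real h hM τ' p).2.1]
    obtain ⟨N1, χ, hN1, H⟩ | h3 := h3
    · refine ⟨N1, hN1, fun N hN hM hd => Or.inr ⟨key2 N hN hM, Or.inr fun p => ?_, key4 N hN hM⟩⟩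
      have h1 := H ⟨p.1, p.2.1⟩
      rw [dc_one χ hd p.2.2, one_mul, (rs_real h hM τ p).2.2.2, (rs_real h hM τ' p).2.2.2,
        (rs_real h hM τ p).2.2.1, (rs_real h hM τ' p).2.2.1] at h1
      exact ⟨by exact_mod_cast h1.1, h1.2⟩
    · refine ⟨1, one_pos, fun N hN hM _ => Or.inr ⟨key2 N hN hM, Or.inl ?_, key4 N hN hM⟩⟩
      have h3N := h3 N hN
      simp only [HasMeanN] at h3N
      convert h3N using 2 with p
      rw [(rs_real h hM τ p).2.2.2, (rs_real h hM τ' p).2.2.2, Complex.conj_ofReal,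
        ← Complex.ofReal_mul, Complex.ofReal_re]

theorem core_of (h : GL2System L P M om lam) :
    ∃ N : ℕ, 0 < N ∧ M ∣ N ∧ MaassCore L (PN P N) (rs lam N) := by
  choose N1 hN1 H using core_pair h
  refine ⟨M * ∏ τ, ∏ τ', N1 τ τ', ?_, Dvd.intro _ rfl, ?_⟩
  · exact Nat.mul_pos h.pos (Finset.prod_pos fun τ _ => Finset.prod_pos fun τ' _ => hN1 τ τ')
  · have hN : 0 < M * ∏ τ, ∏ τ', N1 τ τ' :=
      Nat.mul_pos h.pos (Finset.prod_pos fun τ _ => Finset.prod_pos fun τ' _ => hN1 τ τ')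
    have hM : M ∣ M * ∏ τ, ∏ τ', N1 τ τ' := Dvd.intro _ rfl
    refine ⟨fun p hp => (h.prime p hp.1).1, fun p => h.integral _, fun τ p => ?_,
      core_self h hN hM, fun τ τ' => H τ τ' _ hN hM ?_⟩
    · rw [(rs_real h hM τ p).1, Complex.ofReal_im]
    · refine dvd_mul_of_dvd_right ?_ _
      exact (Finset.dvd_prod_of_mem _ (Finset.mem_univ τ')).trans
        (Finset.dvd_prod_of_mem (fun τ => ∏ τ', N1 τ τ') (Finset.mem_univ τ))

end

end Pool.Agent.Maass
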