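import Pool.Agent.Lib_helper56.Maass2.FIN1

namespace Pool.Agent.Maass

open Filter Topology NumberField

section
variable {L : Type} [Field L] [NumberField L] {P : Set ℕ} {M : ℕ} {om : DirichletCharacter L M}
  {lam : P → L}

theorem om_unit (h : GL2System L P M om lam) (p : P) : om ((p : ℕ) : ZMod M) ≠ 0 := by
  have h1 : IsUnit ((p : ℕ) : ZMod M) := (ZMod.isUnit_iff_coprime p M).2 (h.prime p p.2).2
  exact (h1.map om).ne_zero

theorem om_inv_int (h : GL2System L P M om lam) (p : P) :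
    IsIntegral ℤ (om ((p : ℕ) : ZMod M))⁻¹ := by
  have : NeZero M := ⟨h.pos.ne'⟩
  have h1 : IsUnit ((p : ℕ) : ZMod M) := (ZMod.isUnit_iff_coprime p M).2 (h.prime p p.2).2
  obtain ⟨u, hu⟩ := h1
  have h2 : (om ((p : ℕ) : ZMod M)) ^ Fintype.card (ZMod M)ˣ = 1 := by
    rw [← hu, ← map_pow, ← Units.val_pow_eq_pow_val, pow_card_eq_one, Units.val_one, map_one]
  refine IsIntegral.of_pow (n := Fintype.card (ZMod M)ˣ) Fintype.card_pos ?_
  rw [inv_pow, h2, inv_one]
  exact isIntegral_one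

/-- the element `λ_p^2 / ω(p)` of `L`; its conjugates are `|λ_p|^2` -/
noncomputable def bet (om : DirichletCharacter L M) (lam : P → L) (p : P) : L :=
  lam p ^ 2 * (om ((p : ℕ) : ZMod M))⁻¹

theorem bet_ev (h : GL2System L P M om lam) (τ : L →+* ℂ) (p : P) :
    τ (bet om lam p) = ((av lam τ p ^ 2 : ℝ) : ℂ) := by
  have h0 : τ (om ((p : ℕ) : ZMod M)) ≠ 0 := fun e => om_unit h p (τ.injective (by rw [e, map_zero]))
  have h1 := h.unitary τ p
  have h2 : τ (lam p) * (starRingEnd ℂ) (τ (lam p)) = ((av lam τ p ^ 2 : ℝ) : ℂ) := by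
    rw [Complex.mul_conj, Complex.normSq_eq_norm_sq]; rfl
  rw [← h2]
  unfold bet
  rw [map_mul, map_inv₀, map_pow]
  have h3 : τ (lam p) ^ 2 = τ (om ((p : ℕ) : ZMod M)) *
      (τ (lam p) * (starRingEnd ℂ) (τ (lam p))) := by
    rw [sq]
    exact (congrArg (τ (lam p) * ·) h1).trans (by ring)
  rw [h3, mul_comm, ← mul_assoc, inv_mul_cancel₀ h0, one_mul]

theorem bet_int (h : GL2System L P M om lam) (p : P) : IsIntegral ℤ (bet om lam p) :=
  ((h.integral p).pow 2).mul (om_inv_int h p)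

theorem pn_one : PN P 1 = P := by
  ext p
  simp [PN, Nat.modEq_one]

theorem mean_pn_one {g : P → ℝ} {m : ℝ} (H : HasMeanN P 1 g m) : HasMean P g m := by
  let e : PN P 1 ≃ P := Equiv.setCongr pn_one
  have he : ∀ s : ℝ, (fun p : PN P 1 => (fun p : P => g p * ((p : ℕ) : ℝ) ^ (-s)) (e p)) =
      fun p : PN P 1 => g ⟨p.1, p.2.1⟩ * ((p : ℕ) : ℝ) ^ (-s) := fun s => rfl
  refine ⟨fun s hs => ?_, ?_⟩
  · have := H.1 s hs
    rw [← he s] at this
    exact e.summable_iff.1 this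
  · refine H.2.congr fun s => ?_
    congr 1
    · exact e.tsum_eq (fun p : P => g p * ((p : ℕ) : ℝ) ^ (-s))
    · exact e.tsum_eq (fun p : P => ((p : ℕ) : ℝ) ^ (-s))

/-- moments of `t = |λ|^2` -/
theorem fin_mom (h : GL2System L P M om lam) (τ : L →+* ℂ) :
    HasMean P (fun _ => 1) 1 ∧ HasMean P (fun p => av lam τ p ^ 2) 1 ∧
    HasMean P (fun p => (av lam τ p ^ 2) ^ 2) 2 ∧ HasMean P (fun p => (av lam τ p ^ 2) ^ 3) 5 ∧
    HasMean P (fun p => (av lam τ p ^ 2) ^ 4) 14 := by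
  obtain ⟨u2', u4', u22', -, u44', u24'⟩ := h.self τ 1 one_pos
  have u2 := mean_pn_one u2'
  have u4 := mean_pn_one u4'
  have u22 := mean_pn_one u22'
  have u44 := mean_pn_one u44'
  have u24 := mean_pn_one u24'
  have hne : P.Nonempty := one_nonempty u22 one_ne_zero
  have m0 := mean_one hne fun p hp => (h.prime p hp).1
  have m1 : HasMean P (fun p => av lam τ p ^ 2) 1 := by
    convert mean_add u2 m0 using 1
    · funext p; simp only [U2]; ring
    · norm_num
  have m2 : HasMean P (fun p => (av lam τ p ^ 2) ^ 2) 2 := by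
    convert mean_add u4 (mean_add (mean_const_mul 3 m1) (mean_const_mul (-1) m0)) using 1
    · funext p; simp only [U4]; ring
    · norm_num
  have m3 : HasMean P (fun p => (av lam τ p ^ 2) ^ 3) 5 := by
    convert mean_add u24 (mean_add (mean_const_mul 4 u4) (mean_add
      (mean_const_mul 8 u2) (mean_const_mul 5 m0))) using 1
    · funext p; simp only [U2, U4]; ring
    · norm_num
  have m4 : HasMean P (fun p => (av lam τ p ^ 2) ^ 4) 14 := by
    convert mean_add u44 (mean_add (mean_const_mul 6 m3) (mean_add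
      (mean_const_mul (-11) m2) (mean_add (mean_const_mul 6 m1)
      (mean_const_mul (-1) m0)))) using 1
    · funext p; simp only [U4]; ring
    · norm_num
  exact ⟨m0, m1, m2, m3, m4⟩

end

section
variable {K L : Type} [Field K] [NumberField K] [Field L] [NumberField L] [Algebra K L]
  {P : Set ℕ} {M : ℕ} {om : DirichletCharacter L M} {lam : P → L}

/-- if the restrictions of `τ`, `τ'` to `K` differ -/
theorem sep_pair {β : P → K} (h : GL2System L P M om lam)
    (hβ : ∀ p, algebraMap K L (β p) = bet om lam p) (τ τ' : L →+* ℂ)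
    (hne : ∃ p, τ (algebraMap K L (β p)) ≠ τ' (algebraMap K L (β p))) :
    (∀ N : ℕ, 0 < N → HasMeanN P N (fun p => U2 (av lam τ p) * U2 (av lam τ' p)) 0) ∧
    ((∀ p : P, U4 (av lam τ p) = U4 (av lam τ' p)) ∨
      ∀ N : ℕ, 0 < N → HasMeanN P N (fun p => U4 (av lam τ p) * U4 (av lam τ' p)) 0) := by
  obtain ⟨N1, χ, hN1, H⟩ | ⟨h2, -, h4⟩ := h.pair τ τ'
  · exfalso
    obtain ⟨p, hp⟩ := hne
    apply hp
    rw [hβ, bet_ev h, bet_ev h]
    have h1 : av lam τ p = av lam τ' p := by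
      unfold av
      rw [(H p).1, norm_mul]
      have h2 : IsUnit ((p : ℕ) : ZMod N1) := (ZMod.isUnit_iff_coprime p N1).2 (H p).2
      obtain ⟨u, hu⟩ := h2
      rw [← hu, χ.unit_norm_eq_one u, one_mul]
    rw [h1]
  · exact ⟨h2, h4⟩

theorem fin_main {β : P → K} (h : GL2System L P M om lam)
    (hβ : ∀ p, algebraMap K L (β p) = bet om lam p)
    (hsep : ∀ φ φ' : K →+* ℂ, φ ≠ φ' → ∃ p, φ (β p) ≠ φ' (β p)) :
    (Fintype.card (K →+* ℂ) = 1 ∧ ∃ N, M ∣ N ∧ MaassCore L (PN P N) (rs lam N)) ∨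
    (Fintype.card (K →+* ℂ) = 2 ∧
      ∃ φ φ' : K →+* ℂ, φ ≠ φ' ∧ ∀ p, U4 (av lam (lft K L φ) p) = U4 (av lam (lft K L φ') p)) := by
  obtain ⟨N, hN, hM, core⟩ := core_of h
  have hsp : ∀ φ φ' : K →+* ℂ, φ ≠ φ' → ∃ p, lft K L φ (algebraMap K L (β p)) ≠
      lft K L φ' (algebraMap K L (β p)) := by
    intro φ φ' ne
    obtain ⟨p, hp⟩ := hsep φ φ' ne
    exact ⟨p, by rwa [basic_lft, basic_lft]⟩
  have hβ' : ∀ p : PN P N, algebraMap K L (β ⟨p.1, p.2.1⟩) = rs lam N p ^ 2 := by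
    intro p
    rw [hβ]
    unfold bet
    have hom : om ((p.1 : ℕ) : ZMod M) = 1 := dc_one om hM p.2.2
    simp only [hom, inv_one, mul_one]
    rfl
  have hsep' : ∀ φ φ' : K →+* ℂ, φ ≠ φ' → ∃ p : PN P N, φ (β ⟨p.1, p.2.1⟩) ≠
      φ' (β ⟨p.1, p.2.1⟩) := by
    intro φ φ' ne
    by_contra hcon
    push Not at hcon
    have h1 := (sep_pair h hβ _ _ (hsp φ φ' ne)).1 N hN
    have h2 := (h.self (lft K L φ) N hN).2.2.1
    have h3 : HasMeanN P N (fun p => U2 (av lam (lft K L φ) p) ^ 2) 0 := by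
      simp only [HasMeanN] at h1 ⊢
      convert h1 using 2 with p
      have e := hcon p
      rw [← basic_lft (L := L) φ, ← basic_lft (L := L) φ', hβ, bet_ev h, bet_ev h] at e
      have e' : av lam (lft K L φ) ⟨p.1, p.2.1⟩ ^ 2 = av lam (lft K L φ') ⟨p.1, p.2.1⟩ ^ 2 := by
        exact_mod_cast e
      simp only [U2, e']
      ring
    exact one_ne_zero (mean_unique h2 h3)
  obtain hd | ⟨hd, φ, φ', ne, hi⟩ := fin_deg core hβ' hsep'
  · exact Or.inl ⟨hd, N, hM, core⟩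
  · refine Or.inr ⟨hd, φ, φ', ne, ?_⟩
    obtain h4 | h4 := (sep_pair h hβ _ _ (hsp φ φ' ne)).2
    · exact h4
    · exfalso
      have hi' : ∀ p, U4 (lft K L φ (rs lam N p)).re = U4 (lft K L φ' (rs lam N p)).re := by
        obtain e | e := hi
        · exact absurd e ne
        · exact e
      have h1 := h4 N hN
      have h2 := (h.self (lft K L φ) N hN).2.2.2.2.1
      have h3 : HasMeanN P N (fun p => U4 (av lam (lft K L φ) p) ^ 2) 0 := by
        simp only [HasMeanN] at h1 ⊢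
        convert h1 using 2 with p
        have e := hi' p
        rw [(rs_real h hM _ p).2.2.1, (rs_real h hM _ p).2.2.1, sq]
        unfold ev
        rw [e]
      exact one_ne_zero (mean_unique h2 h3)

/-- the structure in the case of degree two, at every `p` -/
theorem fin_struct {β : P → K} (h : GL2System L P M om lam)
    (hβ : ∀ p, algebraMap K L (β p) = bet om lam p)
    (hd : Fintype.card (K →+* ℂ) = 2) {φ φ' : K →+* ℂ}
    (hall : ∀ ψ : K →+* ℂ, ψ = φ ∨ ψ = φ')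
    (τ τ' : L →+* ℂ) (hτ : τ.comp (algebraMap K L) = φ) (hτ' : τ'.comp (algebraMap K L) = φ')
    (hu : ∀ p, U4 (av lam τ p) = U4 (av lam τ' p)) (p : P) :
    (av lam τ p ^ 2 = av lam τ' p ^ 2 ∧ ∃ n : ℕ, av lam τ p ^ 2 = n) ∨
    (av lam τ p ^ 2 + av lam τ' p ^ 2 = 3 ∧ av lam τ p ^ 2 * av lam τ' p ^ 2 = 1 ∧
      (2 * β p - 3) ^ 2 = 5) := by
  have hβint : IsIntegral ℤ (β p) := by
    have : IsIntegral ℤ (algebraMap K L (β p)) := by rw [hβ]; exact bet_int h p
    exact (isIntegral_algebraMap_iff (algebraMap K L).injective).1 this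
  have e1 : φ (β p) = ((av lam τ p ^ 2 : ℝ) : ℂ) := by
    rw [← hτ, RingHom.comp_apply, hβ, bet_ev h]
  have e2 : φ' (β p) = ((av lam τ' p ^ 2 : ℝ) : ℂ) := by
    rw [← hτ', RingHom.comp_apply, hβ, bet_ev h]
  have hpos : ∀ ψ : K →+* ℂ, ∃ s : ℝ, 0 ≤ s ∧ ψ (β p) = (s : ℂ) := by
    intro ψ
    obtain e | e := hall ψ
    · exact ⟨_, sq_nonneg _, by rw [e]; exact e1⟩
    · exact ⟨_, sq_nonneg _, by rw [e]; exact e2⟩
  by_cases hp : φ (β p) = φ' (β p)
  · left
    have h1 : av lam τ p ^ 2 = av lam τ' p ^ 2 := by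
      rw [e1, e2] at hp
      exact_mod_cast hp
    refine ⟨h1, fin_nat hβint hd _ (by positivity) fun ψ => ?_⟩
    obtain e | e := hall ψ
    · rw [e]; exact e1
    · rw [e, ← hp]; exact e1
  · right
    have hU : ∀ x : ℝ, U4 x = (x ^ 2) ^ 2 - 3 * x ^ 2 + 1 := fun x => by unfold U4; ring
    have hs : av lam τ p ^ 2 + av lam τ' p ^ 2 = 3 := by
      have e := hu p
      rw [hU, hU] at e
      have h1 : (av lam τ p ^ 2 - av lam τ' p ^ 2) *
          (av lam τ p ^ 2 + av lam τ' p ^ 2 - 3) = 0 := by linear_combination e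
      rcases mul_eq_zero.mp h1 with h2 | h2
      · exfalso
        apply hp
        rw [e1, e2, sub_eq_zero.mp h2]
      · linarith
    have hsum : φ (β p) + φ' (β p) = 3 := by
      rw [e1, e2, ← Complex.ofReal_add, hs]
      norm_num
    have h1 := iso_core hβint hpos hsum hp
    have h3 : φ (β p) ^ 2 - 3 * φ (β p) + 1 = 0 := by
      have := congrArg φ h1
      rwa [map_add, map_sub, map_mul, map_pow, map_one, map_zero,
        show (3 : K) = ((3 : ℕ) : K) by norm_num, map_natCast,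
        show ((3 : ℕ) : ℂ) = 3 by norm_num] at this
    have h4 : φ (β p) * φ' (β p) = 1 := by
      have : φ' (β p) = 3 - φ (β p) := by linear_combination hsum
      rw [this]
      linear_combination -h3
    rw [e1, e2] at h4
    exact ⟨hs, by exact_mod_cast h4, by linear_combination 4 * h1⟩

open Classical in
/-- statistics in the case of degree two -/
theorem fin_stat {β : P → K} (h : GL2System L P M om lam)
    (hβ : ∀ p, algebraMap K L (β p) = bet om lam p)
    (hsep : ∀ φ φ' : K →+* ℂ, φ ≠ φ' → ∃ p, φ (β p) ≠ φ' (β p))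
    (hd : Fintype.card (K →+* ℂ) = 2)
    {φ1 φ2 : K →+* ℂ} (ne : φ1 ≠ φ2)
    (hi : ∀ p, U4 (av lam (lft K L φ1) p) = U4 (av lam (lft K L φ2) p)) (τ : L →+* ℂ) :
    (∃ s : K, s ^ 2 = 5) ∧
    (∀ p, (∃ n : ℕ, av lam τ p ^ 2 = n) ∨ av lam τ p ^ 2 = Real.goldenRatio ^ 2 ∨
      av lam τ p ^ 2 = Real.goldenRatio⁻¹ ^ 2) ∧
    HasMean P (fun p => if av lam τ p ^ 2 = 0 then 1 else 0) (1 / 4) ∧
    HasMean P (fun p => if av lam τ p ^ 2 = 1 then 1 else 0) (1 / 3) ∧
    HasMean P (fun p => if av lam τ p ^ 2 = 4 then 1 else 0) (1 / 60) ∧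
    HasMean P (fun p => if av lam τ p ^ 2 = Real.goldenRatio ^ 2 then 1 else 0) (1 / 5) ∧
    HasMean P (fun p => if av lam τ p ^ 2 = Real.goldenRatio⁻¹ ^ 2 then 1 else 0) (1 / 5) := by
  -- all embeddings are `φ1` or `φ2`
  have hall : ∀ φ : K →+* ℂ, φ = φ1 ∨ φ = φ2 := by
    intro φ
    by_contra hcon
    push Not at hcon
    have : 2 < Fintype.card (K →+* ℂ) := by
      rw [← Finset.card_univ]
      exact Finset.two_lt_card_iff.2 ⟨φ, φ1, φ2, Finset.mem_univ _, Finset.mem_univ _,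
        Finset.mem_univ _, hcon.1, hcon.2, ne⟩
    omega
  -- the absolute value depends only on the restriction to `K`
  have hres : ∀ σ σ' : L →+* ℂ, σ.comp (algebraMap K L) = σ'.comp (algebraMap K L) →
      ∀ p, U4 (av lam σ p) = U4 (av lam σ' p) := by
    intro σ σ' e p
    have e1 := bet_ev h σ p
    have e2 := bet_ev h σ' p
    rw [← hβ] at e1 e2
    have e3 := DFunLike.congr_fun e (β p)
    rw [RingHom.comp_apply, RingHom.comp_apply, e1, e2] at e3
    have e4 : av lam σ p ^ 2 = av lam σ' p ^ 2 := by exact_mod_cast e3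
    have hU : ∀ x : ℝ, U4 x = (x ^ 2) ^ 2 - 3 * x ^ 2 + 1 := fun x => by unfold U4; ring
    rw [hU, hU, e4]
  have hlft : ∀ φ : K →+* ℂ, (lft K L φ).comp (algebraMap K L) = φ := fun φ =>
    RingHom.ext fun x => basic_lft φ x
  obtain ⟨φ, φ', τ', hτ, hτ', ne', hall', hu⟩ : ∃ (φ φ' : K →+* ℂ) (τ' : L →+* ℂ),
      τ.comp (algebraMap K L) = φ ∧ τ'.comp (algebraMap K L) = φ' ∧ φ ≠ φ' ∧
      (∀ ψ : K →+* ℂ, ψ = φ ∨ ψ = φ') ∧ ∀ p, U4 (av lam τ p) = U4 (av lam τ' p) := by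
    obtain e | e := hall (τ.comp (algebraMap K L))
    · refine ⟨φ1, φ2, lft K L φ2, e, hlft φ2, ne, hall, fun p => ?_⟩
      rw [← hi p]
      exact hres _ _ (by rw [e, hlft]) p
    · refine ⟨φ2, φ1, lft K L φ1, e, hlft φ1, ne.symm, fun ψ => (hall ψ).symm, fun p => ?_⟩
      rw [hi p]
      exact hres _ _ (by rw [e, hlft]) p
  have hst := fin_struct h hβ hd hall' τ τ' hτ hτ' hu
  have hne : ∃ p, τ (algebraMap K L (β p)) ≠ τ' (algebraMap K L (β p)) := by
    obtain ⟨p, hp⟩ := hsep φ φ' ne'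
    exact ⟨p, by rw [← hτ, ← hτ'] at hp; exact hp⟩
  obtain ⟨m0, m1, m2, m3, m4⟩ := fin_mom h τ
  obtain ⟨-, m1', m2', m3', m4'⟩ := fin_mom h τ'
  have mm : HasMean P (fun p => av lam τ p ^ 2 * av lam τ' p ^ 2) 1 := by
    have h2 := mean_pn_one ((sep_pair h hβ τ τ' hne).1 1 one_pos)
    have u2 := mean_pn_one (h.self τ 1 one_pos).1
    have u2' := mean_pn_one (h.self τ' 1 one_pos).1
    convert mean_add h2 (mean_add u2 (mean_add u2' m0)) using 1
    · funext p; simp only [U2]; ring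
    · norm_num
  refine ⟨?_, ?_, dens (fun p => av lam τ p ^ 2) (fun p => av lam τ' p ^ 2) ?_ m0 m1 m2 m3 m4
    m1' m2' m3' m4' mm⟩
  · obtain ⟨p, hp⟩ := hne
    obtain ⟨h1, -⟩ | ⟨-, -, h5⟩ := hst p
    · exfalso
      apply hp
      rw [hβ, bet_ev h, bet_ev h, h1]
    · exact ⟨_, h5⟩
  · intro p
    obtain ⟨-, h1⟩ | ⟨h1, h2, -⟩ := hst p
    · exact Or.inl h1
    · rw [dens_goldenRatio_sq, dens_goldenRatio_inv_sq]
      rcases dens_A_root h1 h2 with h3 | h3
      · exact Or.inr (Or.inl h3.1)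
      · exact Or.inr (Or.inr h3.1)
  · intro p
    obtain h1 | ⟨h1, h2, -⟩ := hst p
    · exact Or.inl h1
    · exact Or.inr ⟨h1, h2⟩

end

/-- **Main theorem.** -/
theorem fin_all {L : Type} [Field L] [NumberField L] {P : Set ℕ} {M : ℕ}
    {om : DirichletCharacter L M} {lam : P → L} (h : GL2System L P M om lam) :
    Module.finrank ℚ (IntermediateField.adjoin ℚ (Set.range fun p : P =>
      lam p ^ 2 * (om ((p : ℕ) : ZMod M))⁻¹)) = 2 ∧
    (∃ x ∈ IntermediateField.adjoin ℚ (Set.range fun p : P =>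
      lam p ^ 2 * (om ((p : ℕ) : ZMod M))⁻¹), x ^ 2 = 5) ∧
    ∀ τ : L →+* ℂ,
      (∀ p, (∃ n : ℕ, ‖τ (lam p)‖ ^ 2 = n) ∨ ‖τ (lam p)‖ = Real.goldenRatio ∨
        ‖τ (lam p)‖ = Real.goldenRatio⁻¹) ∧
      HasDensity P {p | ‖τ (lam p)‖ = 0} (1 / 4) ∧
      HasDensity P {p | ‖τ (lam p)‖ = 1} (1 / 3) ∧
      HasDensity P {p | ‖τ (lam p)‖ = 2} (1 / 60) ∧
      HasDensity P {p | ‖τ (lam p)‖ = Real.goldenRatio} (1 / 5) ∧
      HasDensity P {p | ‖τ (lam p)‖ = Real.goldenRatio⁻¹} (1 / 5) := by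
  classical
  set K := IntermediateField.adjoin ℚ (Set.range fun p : P =>
      lam p ^ 2 * (om ((p : ℕ) : ZMod M))⁻¹) with hK
  let β : P → K := fun p => ⟨bet om lam p, IntermediateField.subset_adjoin ℚ _ ⟨p, rfl⟩⟩
  have hβ : ∀ p, algebraMap K L (β p) = bet om lam p := fun p => rfl
  have hsep : ∀ φ φ' : K →+* ℂ, φ ≠ φ' → ∃ p, φ (β p) ≠ φ' (β p) := by
    intro φ φ' ne
    by_contra hcon
    push Not at hcon
    apply ne
    have h1 : φ.toRatAlgHom = φ'.toRatAlgHom := by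
      refine IntermediateField.algHom_ext_of_eq_adjoin (F := ℚ) (E := L) (S := K) hK ?_
      rintro x ⟨p, rfl⟩
      exact hcon p
    ext x
    exact DFunLike.congr_fun h1 x
  have hcard : Fintype.card (K →+* ℂ) = Module.finrank ℚ K := NumberField.Embeddings.card K ℂ
  obtain ⟨hd, N, hM, core⟩ | ⟨hd, φ1, φ2, ne, hi⟩ := fin_main h hβ hsep
  · exfalso
    refine one_case core fun p => ?_
    have h1 : Module.finrank ℚ K = 1 := by rw [← hcard, hd]
    have h2 : K = ⊥ := IntermediateField.finrank_eq_one_iff.1 h1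
    have h3 : bet om lam ⟨p.1, p.2.1⟩ ∈ K := (β ⟨p.1, p.2.1⟩).2
    rw [h2, IntermediateField.mem_bot] at h3
    obtain ⟨n, hn⟩ := h3
    refine ⟨n, ?_⟩
    have hom : om ((p.1 : ℕ) : ZMod M) = 1 := dc_one om hM p.2.2
    unfold bet at hn
    simp only [hom, inv_one, mul_one] at hn
    unfold rs
    rw [← hn]
    simp
  · have hst := fin_stat h hβ hsep hd ne hi
    refine ⟨by rw [← hcard, hd], ?_, fun τ => ?_⟩
    · obtain ⟨⟨s, hs⟩, -⟩ := hst (Classical.arbitrary (L →+* ℂ))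
      refine ⟨s, s.2, ?_⟩
      have := congrArg (algebraMap K L) hs
      rwa [map_pow, map_ofNat] at this
    · obtain ⟨-, hz, h0, h1, h4, hp, hq⟩ := hst τ
      have key : ∀ (c δ : ℝ), 0 ≤ c →
          HasMean P (fun p => if av lam τ p ^ 2 = c ^ 2 then 1 else 0) δ →
          HasDensity P {p | ‖τ (lam p)‖ = c} δ := by
        intro c δ hc H
        unfold HasDensity
        convert H using 2 with p
        have : ‖τ (lam p)‖ = c ↔ av lam τ p ^ 2 = c ^ 2 :=
          (sq_eq_sq₀ (norm_nonneg _) hc).symm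
        simp only [Set.mem_ofPred_eq, this]
      have key2 : ∀ (c : ℝ) (p : P), 0 ≤ c → av lam τ p ^ 2 = c ^ 2 → ‖τ (lam p)‖ = c :=
        fun c p hc e => (sq_eq_sq₀ (norm_nonneg _) hc).1 e
      refine ⟨fun p => ?_, key 0 _ le_rfl (by simpa using h0), key 1 _ zero_le_one (by simpa using h1),
        key 2 _ zero_le_two (by norm_num at h4 ⊢; exact h4), key _ _ Real.goldenRatio_pos.le hp,
        key _ _ (inv_pos.2 Real.goldenRatio_pos).le hq⟩
      rcases hz p with h | h | h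
      · exact Or.inl h
      · exact Or.inr (Or.inl (key2 _ p Real.goldenRatio_pos.le h))
      · exact Or.inr (Or.inr (key2 _ p (inv_pos.2 Real.goldenRatio_pos).le h))

end Pool.Agent.Maass
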