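import Pool.Agent.Lib_helper56.Maass2.Core
import Pool.Agent.Lib_helper56.Maass2.MEAN
import Pool.Agent.Lib_helper56.Maass2.BASIC

namespace Pool.Agent.Maass

open Filter Topology NumberField

section
variable {K L : Type} [Field K] [NumberField K] [Field L] [NumberField L] [Algebra K L]

theorem up_nonempty {L : Type} [Field L] [NumberField L] {P : Set ℕ} {α : P → L}
    (h : MaassCore L P α) (τ : L →+* ℂ) : P.Nonempty := by
  by_contra hP
  rw [Set.not_nonempty_iff_eq_empty] at hP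
  subst hP
  have h1 := (h.self τ).2.2.1
  have h2 : HasMean (∅ : Set ℕ) (fun p => U2 (ev α τ p) ^ 2) 0 := by
    refine ⟨fun s _ => ?_, ?_⟩
    · exact (hasSum_empty).summable
    · simp
  have := mean_unique h1 h2
  norm_num at this

/-- the value at `p` of the eigenvalue for a lifted embedding -/
theorem up_ev {P : Set ℕ} {α : P → L} {β : P → K} (h : MaassCore L P α)
    (hβ : ∀ p, algebraMap K L (β p) = α p ^ 2) (p : P) (φ : K →+* ℂ) :
    φ (β p) = (((lft K L φ (α p)).re ^ 2 : ℝ) : ℂ) := by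
  have : Pt K L (α p) (β p) := ⟨h.integral p, hβ p, fun φ => h.real _ p⟩
  exact pt_sq this φ

open Classical in
/-- pairs of distinct embeddings -/
theorem up_pair {P : Set ℕ} {α : P → L} {β : P → K} (h : MaassCore L P α)
    (hβ : ∀ p, algebraMap K L (β p) = α p ^ 2)
    (hsep : ∀ φ φ' : K →+* ℂ, φ ≠ φ' → ∃ p, φ (β p) ≠ φ' (β p)) (φ φ' : K →+* ℂ) (ne : φ ≠ φ') :
    HasMean P (fun p => U2 (lft K L φ (α p)).re * U2 (lft K L φ' (α p)).re) 0 ∧
    (∃ c : ℝ, c ≤ (if Iso K L α φ φ' then 1 else 0) ∧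
      HasMean P (fun p => U3 (lft K L φ (α p)).re * U3 (lft K L φ' (α p)).re) c) ∧
    (∃ c : ℝ, c ≤ (if Iso K L α φ φ' then 1 else 0) ∧
      HasMean P (fun p => U4 (lft K L φ (α p)).re * U4 (lft K L φ' (α p)).re) c) := by
  obtain hJ | ⟨h2, h3, h4⟩ := h.pair (lft K L φ) (lft K L φ')
  · exfalso
    obtain ⟨p, hp⟩ := hsep φ φ' ne
    apply hp
    rw [up_ev h hβ, up_ev h hβ]
    have h1 := hJ p
    unfold ev at h1
    rw [h1]
  · refine ⟨h2, ?_, ?_⟩
    · obtain h3 | h3 := h3
      · exact ⟨0, by split_ifs <;> norm_num, h3⟩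
      · refine ⟨1, ?_, ?_⟩
        · rw [if_pos (show Iso K L α φ φ' from Or.inr fun p => (h3 p).2)]
        · have := (h.self (lft K L φ')).2.2.2.1
          convert this using 2 with p
          have e := (h3 p).1
          unfold ev at e ⊢
          rw [e]; ring
    · obtain h4 | h4 := h4
      · exact ⟨0, by split_ifs <;> norm_num, h4⟩
      · refine ⟨1, ?_, ?_⟩
        · rw [if_pos (show Iso K L α φ φ' from Or.inr fun p => (h4 p))]
        · have := (h.self (lft K L φ')).2.2.2.2.1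
          convert this using 2 with p
          have e := (h4 p)
          unfold ev at e ⊢
          rw [e]; ring

open Classical in
/-- the double sum -/
theorem up_sum {P : Set ℕ} {α : P → L} (U : ℝ → ℝ) (e : (K →+* ℂ) → (K →+* ℂ) → ℝ)
    (C : ℝ) (hC : ∀ φ, ∑ φ', e φ φ' ≤ C)
    (H : ∀ φ φ' : K →+* ℂ, ∃ c ≤ e φ φ',
      HasMean P (fun p => U (lft K L φ (α p)).re * U (lft K L φ' (α p)).re) c) :
    ∃ m ≤ C * (Fintype.card (K →+* ℂ) : ℝ), HasMean P (fun p => SS K L U (α p) ^ 2) m := by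
  choose c hc hm using H
  refine ⟨∑ φ, ∑ φ', c φ φ', ?_, ?_⟩
  · calc ∑ φ, ∑ φ', c φ φ' ≤ ∑ φ : K →+* ℂ, C := by
          refine Finset.sum_le_sum fun φ _ => (Finset.sum_le_sum fun φ' _ => hc φ φ').trans (hC φ)
      _ = C * (Fintype.card (K →+* ℂ) : ℝ) := by
          rw [Finset.sum_const, Finset.card_univ]
          simp [mul_comm]
  · have h1 := mean_sum (P := P) (Finset.univ : Finset (K →+* ℂ)) _ _ fun φ _ =>
      mean_sum (P := P) (Finset.univ : Finset (K →+* ℂ)) _ _ fun φ' _ => hm φ φ'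
    convert h1 using 2 with p
    unfold SS
    rw [sq, Finset.sum_mul_sum]

open Classical in
theorem up {P : Set ℕ} {α : P → L} {β : P → K} (h : MaassCore L P α)
    (hβ : ∀ p, algebraMap K L (β p) = α p ^ 2)
    (hsep : ∀ φ φ' : K →+* ℂ, φ ≠ φ' → ∃ p, φ (β p) ≠ φ' (β p))
    (w3 w4 B : ℝ) (hw3 : 0 ≤ w3) (hw4 : 0 ≤ w4) (C : ℕ)
    (hC : ∀ φ : K →+* ℂ, (Finset.univ.filter fun φ' => Iso K L α φ φ').card ≤ C)
    (hB : ∀ p, B ≤ SS K L U2 (α p) ^ 2 + w3 * SS K L U3 (α p) ^ 2 + w4 * SS K L U4 (α p) ^ 2) :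
    B ≤ (1 + w3 * C + w4 * C) * (Fintype.card (K →+* ℂ) : ℝ) := by
  have hpr := up_pair h hβ hsep
  obtain ⟨m2, hm2, M2⟩ := up_sum (K := K) (L := L) (P := P) (α := α) U2
    (fun φ φ' => if φ = φ' then 1 else 0) 1 (by intro φ; simp) (by
      intro φ φ'
      by_cases e : φ = φ'
      · subst e
        refine ⟨1, by simp, ?_⟩
        have := (h.self (lft K L φ)).2.2.1
        simpa only [ev, sq] using this
      · exact ⟨0, by simp [e], (hpr φ φ' e).1⟩)
  have hCC : ∀ φ : K →+* ℂ, ∑ φ' : K →+* ℂ, (if Iso K L α φ φ' then (1 : ℝ) else 0) ≤ (C : ℝ) := by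
    intro φ
    rw [Finset.sum_boole]
    exact_mod_cast hC φ
  obtain ⟨m3, hm3, M3⟩ := up_sum (K := K) (L := L) (P := P) (α := α) U3
    (fun φ φ' => if Iso K L α φ φ' then 1 else 0) C hCC (by
      intro φ φ'
      by_cases e : φ = φ'
      · subst e
        refine ⟨1, by simp [Iso], ?_⟩
        have := (h.self (lft K L φ)).2.2.2.1
        simpa only [ev, sq] using this
      · exact (hpr φ φ' e).2.1)
  obtain ⟨m4, hm4, M4⟩ := up_sum (K := K) (L := L) (P := P) (α := α) U4
    (fun φ φ' => if Iso K L α φ φ' then 1 else 0) C hCC (by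
      intro φ φ'
      by_cases e : φ = φ'
      · subst e
        refine ⟨1, by simp [Iso], ?_⟩
        have := (h.self (lft K L φ)).2.2.2.2.1
        simpa only [ev, sq] using this
      · exact (hpr φ φ' e).2.2)
  have hne : P.Nonempty := up_nonempty h (Classical.arbitrary (L →+* ℂ))
  have M1 := mean_const_mul (-B) (mean_one hne fun p hp => h.prime p hp)
  have M := mean_add M1 (mean_add (mean_add M2 (mean_const_mul w3 M3))
    (mean_const_mul w4 M4))
  have := mean_nonneg M (by intro p; have := hB p; linarith)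
  have a3 := mul_le_mul_of_nonneg_left hm3 hw3
  have a4 := mul_le_mul_of_nonneg_left hm4 hw4
  linarith

end

end Pool.Agent.Maass
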